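import Mathlib
import Pool.Agent.R440.Loc

/-!
Congruences between `p`-integral rational numbers.
-/

set_option autoImplicit false

namespace Pool.Agent.Helper18SC

open Finset Pool.Agent.R440

variable {p : ℕ} [hp : Fact p.Prime]

/-- `a ≡ b` modulo `p ^ m` in the ring of the `p`-integral rationals. -/
def Cg (p : ℕ) [Fact p.Prime] (m : ℕ) (a b : ℚ) : Prop := ∃ z ∈ Zp p, a - b = (p : ℚ) ^ m * z

theorem p_mem : (p : ℚ) ∈ Zp p := natCast_mem _ p

theorem p_ne : (p : ℚ) ≠ 0 := by exact_mod_cast hp.out.ne_zero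

namespace Cg

variable {m n : ℕ} {a b c d : ℚ}

theorem refl (a : ℚ) : Cg p m a a := ⟨0, zero_mem _, by simp⟩

theorem of_eq (h : a = b) : Cg p m a b := h ▸ refl a

theorem symm (h : Cg p m a b) : Cg p m b a := by
  obtain ⟨z, hz, e⟩ := h
  exact ⟨-z, neg_mem hz, by rw [← neg_sub, e]; ring⟩

theorem trans (h : Cg p m a b) (h' : Cg p m b c) : Cg p m a c := by
  obtain ⟨z, hz, e⟩ := h
  obtain ⟨z', hz', e'⟩ := h'
  exact ⟨z + z', add_mem hz hz', by rw [mul_add, ← e, ← e']; ring⟩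

theorem add (h : Cg p m a b) (h' : Cg p m c d) : Cg p m (a + c) (b + d) := by
  obtain ⟨z, hz, e⟩ := h
  obtain ⟨z', hz', e'⟩ := h'
  exact ⟨z + z', add_mem hz hz', by rw [mul_add, ← e, ← e']; ring⟩

theorem neg (h : Cg p m a b) : Cg p m (-a) (-b) := by
  obtain ⟨z, hz, e⟩ := h
  exact ⟨-z, neg_mem hz, by rw [mul_neg, ← e]; ring⟩

theorem sub (h : Cg p m a b) (h' : Cg p m c d) : Cg p m (a - c) (b - d) := by
  rw [sub_eq_add_neg, sub_eq_add_neg]; exact h.add h'.neg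

theorem mul_left (hc : c ∈ Zp p) (h : Cg p m a b) : Cg p m (c * a) (c * b) := by
  obtain ⟨z, hz, e⟩ := h
  exact ⟨c * z, mul_mem hc hz, by rw [← mul_sub, e]; ring⟩

theorem mul_right (hc : c ∈ Zp p) (h : Cg p m a b) : Cg p m (a * c) (b * c) := by
  rw [mul_comm a, mul_comm b]; exact h.mul_left hc

theorem mul (h : Cg p m a b) (h' : Cg p m c d) (ha : a ∈ Zp p) (hd : d ∈ Zp p) :
    Cg p m (a * c) (b * d) := (h'.mul_left ha).trans (h.mul_right hd)

theorem mem_left (h : Cg p m a b) (hb : b ∈ Zp p) : a ∈ Zp p := by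
  obtain ⟨z, hz, e⟩ := h
  have : a = b + (p : ℚ) ^ m * z := by rw [← e]; ring
  rw [this]
  exact add_mem hb (mul_mem (pow_mem p_mem _) hz)

theorem mem_right (h : Cg p m a b) (ha : a ∈ Zp p) : b ∈ Zp p := h.symm.mem_left ha

theorem mul' (h : Cg p m a b) (h' : Cg p m c d) (hb : b ∈ Zp p) (hd : d ∈ Zp p) :
    Cg p m (a * c) (b * d) := h.mul h' (h.mem_left hb) hd

theorem pow (h : Cg p m a b) (hb : b ∈ Zp p) (k : ℕ) : Cg p m (a ^ k) (b ^ k) := by
  induction k with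
  | zero => simpa using refl (p := p) (m := m) (1 : ℚ)
  | succ k ih =>
    rw [pow_succ, pow_succ]
    exact ih.mul' h (pow_mem hb _) hb

theorem mono (hmn : m ≤ n) (h : Cg p n a b) : Cg p m a b := by
  obtain ⟨z, hz, e⟩ := h
  obtain ⟨k, rfl⟩ := Nat.exists_eq_add_of_le hmn
  exact ⟨(p : ℚ) ^ k * z, mul_mem (pow_mem p_mem _) hz, by rw [e, pow_add]; ring⟩

theorem sum {ι : Type*} {s : Finset ι} {f g : ι → ℚ} (h : ∀ i ∈ s, Cg p m (f i) (g i)) :
    Cg p m (∑ i ∈ s, f i) (∑ i ∈ s, g i) := by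
  classical
  induction s using Finset.induction_on with
  | empty => simpa using refl (p := p) (m := m) (0 : ℚ)
  | insert i s hi ih =>
    rw [Finset.sum_insert hi, Finset.sum_insert hi]
    exact (h i (Finset.mem_insert_self i s)).add
      (ih fun j hj => h j (Finset.mem_insert_of_mem hj))

theorem pmul (k : ℕ) (h : Cg p m a b) : Cg p (k + m) ((p : ℚ) ^ k * a) ((p : ℚ) ^ k * b) := by
  obtain ⟨z, hz, e⟩ := h
  exact ⟨z, hz, by rw [← mul_sub, e, pow_add]; ring⟩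

theorem pdiv {k : ℕ} (h : Cg p (k + m) ((p : ℚ) ^ k * a) ((p : ℚ) ^ k * b)) : Cg p m a b := by
  obtain ⟨z, hz, e⟩ := h
  refine ⟨z, hz, ?_⟩
  have h0 : (p : ℚ) ^ k ≠ 0 := pow_ne_zero _ p_ne
  rw [pow_add, ← mul_sub, mul_assoc] at e
  exact mul_left_cancel₀ h0 e

/-- a multiple of `p ^ m` -/
theorem of_mul (hz : a ∈ Zp p) : Cg p m ((p : ℚ) ^ m * a) 0 := ⟨a, hz, by ring⟩

theorem inv (h : Cg p m a b) (ha : a⁻¹ ∈ Zp p) (hb : b⁻¹ ∈ Zp p) (ha0 : a ≠ 0) (hb0 : b ≠ 0) :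
    Cg p m a⁻¹ b⁻¹ := by
  obtain ⟨z, hz, e⟩ := h
  refine ⟨-(a⁻¹ * b⁻¹ * z), neg_mem (mul_mem (mul_mem ha hb) hz), ?_⟩
  have : a⁻¹ - b⁻¹ = -(a⁻¹ * b⁻¹ * (a - b)) := by field_simp; ring
  rw [this, e]; ring

theorem prod {ι : Type*} {s : Finset ι} {f g : ι → ℚ} (h : ∀ i ∈ s, Cg p m (f i) (g i))
    (hg : ∀ i ∈ s, g i ∈ Zp p) : Cg p m (∏ i ∈ s, f i) (∏ i ∈ s, g i) := by
  classical
  induction s using Finset.induction_on with
  | empty => simpa using refl (p := p) (m := m) (1 : ℚ)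
  | insert i s hi ih =>
    rw [Finset.prod_insert hi, Finset.prod_insert hi]
    exact (h i (Finset.mem_insert_self i s)).mul'
      (ih (fun j hj => h j (Finset.mem_insert_of_mem hj))
        fun j hj => hg j (Finset.mem_insert_of_mem hj))
      (hg i (Finset.mem_insert_self i s))
      (prod_mem fun j hj => hg j (Finset.mem_insert_of_mem hj))

end Cg

theorem inv_nat_mem {n : ℕ} (h : ¬ p ∣ n) : ((n : ℚ))⁻¹ ∈ Zp p := by
  rw [← one_div]; exact inv_nat_mem_Zp h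

theorem inv_int_mem {n : ℤ} (h : ¬ (p : ℤ) ∣ n) : ((n : ℚ))⁻¹ ∈ Zp p := by
  rcases le_total 0 n with h0 | h0
  · obtain ⟨k, rfl⟩ : ∃ k : ℕ, n = k := ⟨n.toNat, by omega⟩
    have := inv_nat_mem (p := p) (n := k) (by exact_mod_cast h)
    simpa using this
  · obtain ⟨k, rfl⟩ : ∃ k : ℕ, n = -(k : ℤ) := ⟨(-n).toNat, by omega⟩
    have := inv_nat_mem (p := p) (n := k) (by
      intro hk; exact h (by rw [dvd_neg]; exact_mod_cast hk))
    push_cast
    rw [inv_neg]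
    exact neg_mem this

theorem inv_small {n : ℕ} (h0 : 0 < n) (h : n < p) : ((n : ℚ))⁻¹ ∈ Zp p :=
  inv_nat_mem fun hd => absurd (Nat.le_of_dvd h0 hd) (by omega)

/-- the numbers `1, ..., 2h` in pairs `j, p - j` -/
theorem pair_sum {M : Type*} [AddCommMonoid M] (f : ℕ → M) (h : ℕ) :
    ∑ n ∈ Ico 1 (2 * h + 1), f n = ∑ j ∈ range h, (f (j + 1) + f (2 * h + 1 - (j + 1))) := by
  rw [Finset.sum_add_distrib, ← Finset.sum_Ico_consecutive f (by omega : 1 ≤ h + 1)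
    (by omega : h + 1 ≤ 2 * h + 1)]
  congr 1
  · rw [Finset.sum_Ico_eq_sum_range]
    simp only [Nat.add_sub_cancel]
    exact Finset.sum_congr rfl fun i _ => by rw [add_comm]
  · refine Finset.sum_nbij' (fun n => 2 * h - n) (fun j => 2 * h - j) ?_ ?_ ?_ ?_ ?_
    · intro n hn; simp only [mem_Ico, mem_range] at hn ⊢; omega
    · intro n hn; simp only [mem_Ico, mem_range] at hn ⊢; omega
    · intro n hn; simp only [mem_Ico] at hn; omega
    · intro n hn; simp only [mem_range] at hn; omega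
    · intro n hn
      simp only [mem_Ico] at hn
      congr 1; omega

/-- the numbers `1, ..., 2h` as the even ones `2j` and the odd ones `p - 2j` -/
theorem parity_sum {M : Type*} [AddCommMonoid M] (f : ℕ → M) (h : ℕ) :
    ∑ n ∈ Ico 1 (2 * h + 1), f n =
      ∑ j ∈ range h, (f (2 * (j + 1)) + f (2 * h + 1 - 2 * (j + 1))) := by
  have h1 : ∑ n ∈ Ico 1 (2 * h + 1), f n = ∑ j ∈ range h, (f (2 * j + 1) + f (2 * j + 2)) := by
    induction h with
    | zero => simp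
    | succ h ih =>
      rw [Finset.sum_range_succ, ← ih, show 2 * (h + 1) + 1 = 2 * h + 1 + 1 + 1 by ring,
        Finset.sum_Ico_succ_top (by omega), Finset.sum_Ico_succ_top (by omega), add_assoc]
  rw [h1, Finset.sum_add_distrib, Finset.sum_add_distrib, add_comm]
  congr 1
  rw [← Finset.sum_range_reflect]
  refine Finset.sum_congr rfl fun j hj => ?_
  rw [mem_range] at hj
  congr 1; omega

theorem pair_prod {M : Type*} [CommMonoid M] (f : ℕ → M) (h : ℕ) :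
    ∏ n ∈ Ico 1 (2 * h + 1), f n = ∏ j ∈ range h, (f (j + 1) * f (2 * h + 1 - (j + 1))) :=
  pair_sum (M := Additive M) f h

theorem parity_prod {M : Type*} [CommMonoid M] (f : ℕ → M) (h : ℕ) :
    ∏ n ∈ Ico 1 (2 * h + 1), f n =
      ∏ j ∈ range h, (f (2 * (j + 1)) * f (2 * h + 1 - 2 * (j + 1))) :=
  parity_sum (M := Additive M) f h

theorem pair_sum' {M : Type*} [AddCommMonoid M] {q h : ℕ} (e : q = 2 * h + 1) (f : ℕ → M) :
    ∑ n ∈ Ico 1 q, f n = ∑ j ∈ range h, (f (j + 1) + f (q - (j + 1))) := by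
  subst e; exact pair_sum f h

theorem parity_sum' {M : Type*} [AddCommMonoid M] {q h : ℕ} (e : q = 2 * h + 1) (f : ℕ → M) :
    ∑ n ∈ Ico 1 q, f n = ∑ j ∈ range h, (f (2 * (j + 1)) + f (q - 2 * (j + 1))) := by
  subst e; exact parity_sum f h

theorem pair_prod' {M : Type*} [CommMonoid M] {q h : ℕ} (e : q = 2 * h + 1) (f : ℕ → M) :
    ∏ n ∈ Ico 1 q, f n = ∏ j ∈ range h, (f (j + 1) * f (q - (j + 1))) := by
  subst e; exact pair_prod f h

theorem parity_prod' {M : Type*} [CommMonoid M] {q h : ℕ} (e : q = 2 * h + 1) (f : ℕ → M) :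
    ∏ n ∈ Ico 1 q, f n = ∏ j ∈ range h, (f (2 * (j + 1)) * f (q - 2 * (j + 1))) := by
  subst e; exact parity_prod f h

end Pool.Agent.Helper18SC
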