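import Pool.Agent.Helper18SC.Prod

/-!
First order expansions `q ≡ g (1 + p c)` modulo `p ^ 2`, and the main products modulo `p ^ 5`.
-/

set_option autoImplicit false

namespace Pool.Agent.Helper18SC

open Finset Nat Pool.Agent.R440

variable {p : ℕ} [hp : Fact p.Prime]

theorem one_add_unit {v : ℚ} (hv : v ∈ Zp p) : 1 + p * v ≠ 0 ∧ (1 + p * v)⁻¹ ∈ Zp p := by
  have h1 : padicNorm p (p * v) < 1 := by
    rw [padicNorm.mul, padicNorm.padicNorm_p hp.out.one_lt]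
    have h2 : padicNorm p v ≤ 1 := mem_Zp_def.1 hv
    have h3 : (0 : ℚ) < (p : ℚ)⁻¹ := by
      have : (0 : ℚ) < p := by exact_mod_cast hp.out.pos
      positivity
    have h4 : (p : ℚ)⁻¹ < 1 := by
      rw [inv_lt_one₀ (by exact_mod_cast hp.out.pos)]
      exact_mod_cast hp.out.one_lt
    calc (p : ℚ)⁻¹ * padicNorm p v ≤ (p : ℚ)⁻¹ * 1 := by gcongr
      _ < 1 := by rw [mul_one]; exact h4
  have h5 : padicNorm p (1 + p * v) = 1 := by
    rw [padicNorm.add_eq_max_of_ne (by rw [padicNorm.one]; exact h1.ne'), padicNorm.one,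
      max_eq_left h1.le]
  refine ⟨fun h => ?_, ?_⟩
  · rw [h, padicNorm.zero] at h5; exact zero_ne_one h5
  · rw [mem_Zp_def, ← one_div, padicNorm.div, padicNorm.one, h5]; norm_num

/-- `q ≡ g (1 + p c)` modulo `p ^ 2` -/
structure Ex (p : ℕ) [Fact p.Prime] (q g c : ℚ) : Prop where
  hg : g ∈ Zp p
  hc : c ∈ Zp p
  h : Cg p 2 q (g * (1 + p * c))

namespace Ex

variable {q g c q' g' c' : ℚ}

theorem mem (e : Ex p q g c) : q ∈ Zp p :=
  e.h.mem_left (mul_mem e.hg (add_mem (one_mem _) (mul_mem p_mem e.hc)))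

theorem mul (e : Ex p q g c) (e' : Ex p q' g' c') : Ex p (q * q') (g * g') (c + c') := by
  refine ⟨mul_mem e.hg e'.hg, add_mem e.hc e'.hc, ?_⟩
  refine (e.h.mul' e'.h (mul_mem e.hg (add_mem (one_mem _) (mul_mem p_mem e.hc)))
    (mul_mem e'.hg (add_mem (one_mem _) (mul_mem p_mem e'.hc)))).trans
    ⟨g * g' * (c * c'), mul_mem (mul_mem e.hg e'.hg) (mul_mem e.hc e'.hc), ?_⟩
  ring

theorem one : Ex p 1 1 0 := ⟨one_mem _, zero_mem _, Cg.of_eq (by ring)⟩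

theorem pow (e : Ex p q g c) (n : ℕ) : Ex p (q ^ n) (g ^ n) (n * c) := by
  induction n with
  | zero => simpa using one (p := p)
  | succ n ih =>
    have := ih.mul e
    rw [pow_succ, pow_succ]
    convert this using 1
    push_cast; ring

theorem congr (e : Ex p q g c) (hq : q = q') (hg : g = g') (hc : c = c') : Ex p q' g' c' := by
  subst hq hg hc; exact e

theorem inv (e : Ex p q g c) (hq0 : q ≠ 0) (hq : q⁻¹ ∈ Zp p) (hg0 : g ≠ 0) (hg : g⁻¹ ∈ Zp p) :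
    Ex p q⁻¹ g⁻¹ (-c) := by
  obtain ⟨z, hz, h⟩ := e.h
  refine ⟨hg, neg_mem e.hc, c ^ 2 * q⁻¹ - q⁻¹ * g⁻¹ * z * (1 - p * c), ?_, ?_⟩
  · exact sub_mem (mul_mem (pow_mem e.hc _) hq) (mul_mem (mul_mem (mul_mem hq hg) hz)
      (sub_mem (one_mem _) (mul_mem p_mem e.hc)))
  · have h1 : (p : ℚ) ^ 2 * z = q - g * (1 + p * c) := h.symm
    have h2 : (p : ℚ) ^ 2 * (c ^ 2 * q⁻¹ - q⁻¹ * g⁻¹ * z * (1 - p * c)) =
      p ^ 2 * c ^ 2 * q⁻¹ - q⁻¹ * g⁻¹ * (p ^ 2 * z) * (1 - p * c) := by ring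
    rw [h2, h1]
    field_simp
    ring

/-- linear forms -/
theorem lin {a b : ℚ} (ha : a ∈ Zp p) (hb : b ∈ Zp p) (hb0 : b ≠ 0) (hb' : b⁻¹ ∈ Zp p) :
    Ex p (a * p + b) b (a * b⁻¹) :=
  ⟨hb, mul_mem ha hb', Cg.of_eq (by field_simp; ring)⟩

/-- inverses of linear forms -/
theorem lin_inv {a b : ℚ} (ha : a ∈ Zp p) (hb : b ∈ Zp p) (hb0 : b ≠ 0) (hb' : b⁻¹ ∈ Zp p) :
    Ex p (a * p + b)⁻¹ b⁻¹ (-(a * b⁻¹)) := by
  have h1 := one_add_unit (p := p) (v := a * b⁻¹) (mul_mem ha hb')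
  have h2 : a * p + b = b * (1 + p * (a * b⁻¹)) := by field_simp; ring
  refine (lin ha hb hb0 hb').inv ?_ ?_ hb0 hb'
  · rw [h2]; exact mul_ne_zero hb0 h1.1
  · rw [h2, mul_inv]; exact mul_mem hb' h1.2

end Ex

/-- the products `DD` -/
theorem Ex_DD {h : ℕ} (hh : h < p) {c : ℚ} (hc : c ∈ Zp p) : Ex p (DD p h c) 1 (c * H h 1) := by
  refine ⟨one_mem _, mul_mem hc (H_mem hh 1), ?_⟩
  have := prod1 (p := p) (v := fun j => c * u (j + 1)) h
    (fun j hj => mul_mem hc (u_mem (by omega) (by omega)))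
  refine ((Cg.of_eq ?_).trans this).trans (Cg.of_eq ?_)
  · rw [DD]; exact Finset.prod_congr rfl fun j _ => by ring
  · rw [H, ← Finset.mul_sum]; simp

theorem DD_unit {h : ℕ} (hh : h < p) {c : ℚ} (hc : c ∈ Zp p) :
    DD p h c ≠ 0 ∧ (DD p h c)⁻¹ ∈ Zp p := by
  have h1 : ∀ j < h, (1 + c * p * u (j + 1)) ≠ 0 ∧ (1 + c * p * u (j + 1))⁻¹ ∈ Zp p := by
    intro j hj
    have := one_add_unit (p := p) (v := c * u (j + 1)) (mul_mem hc (u_mem (by omega) (by omega)))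
    rw [show 1 + c * p * u (j + 1) = 1 + p * (c * u (j + 1)) by ring]
    exact this
  refine ⟨Finset.prod_ne_zero_iff.2 fun j hj => (h1 j (mem_range.1 hj)).1, ?_⟩
  rw [DD, ← Finset.prod_inv_distrib]
  exact prod_mem fun j hj => (h1 j (mem_range.1 hj)).2

theorem Ex_DD_inv {h : ℕ} (hh : h < p) {c : ℚ} (hc : c ∈ Zp p) :
    Ex p (DD p h c)⁻¹ 1 (-(c * H h 1)) := by
  have := (Ex_DD hh hc).inv (DD_unit hh hc).1 (DD_unit hh hc).2 one_ne_zero (by simp [one_mem])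
  simpa using this

theorem neg_one_mem : (-1 : ℚ) ∈ Zp p := neg_mem (one_mem _)

theorem neg_half_mem (h2 : p ≠ 2) : (-(1 / 2) : ℚ) ∈ Zp p := neg_mem (half_mem h2)

/-- `1 / 2^(p-1)` -/
theorem Ex_two {h : ℕ} (e : p = 2 * h + 1) (h2 : p ≠ 2) :
    Ex p ((2 : ℚ) ^ (p - 1))⁻¹ 1 (1 / 2 * H h 1) := by
  have h1 := (Ex_DD (p := p) (h := h) (by omega) (neg_half_mem h2)).mul
    (Ex_DD_inv (p := p) (h := h) (by omega) neg_one_mem)
  refine h1.congr ?_ (by ring) (by ring)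
  have h3 := two_pow (p := p) e
  have h4 := (DD_unit (p := p) (h := h) (by omega) (neg_half_mem h2)).1
  have h5 := (DD_unit (p := p) (h := h) (by omega) neg_one_mem).1
  rw [← h3]
  field_simp

theorem FF_eq {h : ℕ} (e : p = 2 * h + 1) (c : ℚ) :
    FF p c = DD p h c * DD p h (-(c + 1)) * (DD p h (-1))⁻¹ := by
  have h1 := full_prod (p := p) e c
  have h2 := (DD_unit (p := p) (h := h) (by omega) neg_one_mem).1
  rw [← h1, FF]
  field_simp

/-- `A ≡ 1` modulo `p ^ 2` -/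
theorem Ex_A {h : ℕ} (e : p = 2 * h + 1) : Ex p (FF p 1) 1 0 := by
  rw [FF_eq e]
  refine (((Ex_DD (p := p) (h := h) (by omega) (one_mem _)).mul
    (Ex_DD (p := p) (h := h) (c := -(1 + 1)) (by omega)
      (neg_mem (add_mem (one_mem _) (one_mem _))))).mul
    (Ex_DD_inv (p := p) (h := h) (by omega) neg_one_mem)).congr rfl (by ring) (by ring)

/-- the main products -/
theorem main_prod {h : ℕ} (e : p = 2 * h + 1) (h7 : 7 ≤ p) (α β γ : ℤ) (R : ℕ → ℚ)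
    (hR : ∀ j < h, R j ∈ Zp p) :
    Cg p 5 (∏ j ∈ range h, (1 + (p : ℚ) ^ 2 * (1 / 4 * u (j + 1) ^ 2 *
        (α + β * (p * u (j + 1) / 2) + γ * (p * u (j + 1) / 2) ^ 2 +
          (p * u (j + 1) / 2) ^ 3 * R j))))
      (1 + (p : ℚ) ^ 3 * (((β : ℚ) / 8 - 7 * α / 24) * H h 3)) := by
  have h2 : p ≠ 2 := by omega
  have hh := half_mem (p := p) h2
  set w : ℕ → ℚ := fun j => 1 / 4 * u (j + 1) ^ 2 *
        (α + β * (p * u (j + 1) / 2) + γ * (p * u (j + 1) / 2) ^ 2 +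
          (p * u (j + 1) / 2) ^ 3 * R j) with hw
  have hu : ∀ j < h, u (j + 1) ∈ Zp p := fun j hj => u_mem (by omega) (by omega)
  have hw3 : ∀ j < h, Cg p 3 (w j) (1 / 4 * α * u (j + 1) ^ 2 + 1 / 8 * β * (p * u (j + 1) ^ 3) +
      1 / 16 * γ * ((p : ℚ) ^ 2 * u (j + 1) ^ 4)) := by
    intro j hj
    refine ⟨(1 / 2) ^ 5 * (u (j + 1) ^ 5 * R j), mul_mem (pow_mem hh _)
      (mul_mem (pow_mem (hu j hj) _) (hR j hj)), ?_⟩
    rw [hw]
    ring
  have hy : ∀ j < h, (p : ℚ) * u (j + 1) / 2 ∈ Zp p := fun j hj => by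
    rw [show (p : ℚ) * u (j + 1) / 2 = 1 / 2 * (p * u (j + 1)) by ring]
    exact mul_mem hh (mul_mem p_mem (hu j hj))
  have hwm : ∀ j < h, w j ∈ Zp p := by
    intro j hj
    rw [hw]
    simp only
    rw [show (1 / 4 : ℚ) = (1 / 2) ^ 2 by norm_num]
    exact mul_mem (mul_mem (pow_mem hh _) (pow_mem (hu j hj) _))
      (add_mem (add_mem (add_mem (intCast_mem _ _) (mul_mem (intCast_mem _ _) (hy j hj)))
        (mul_mem (intCast_mem _ _) (pow_mem (hy j hj) _)))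
        (mul_mem (pow_mem (hy j hj) _) (hR j hj)))
  have hw1 : ∀ j < h, Cg p 1 (w j) (1 / 4 * α * u (j + 1) ^ 2) := by
    intro j hj
    refine ((hw3 j hj).mono (by norm_num)).trans ⟨(1 / 2) ^ 3 * (β * u (j + 1) ^ 3) +
      (1 / 2) ^ 4 * (γ * (p * u (j + 1) ^ 4)), ?_, ?_⟩
    · exact add_mem (mul_mem (pow_mem hh _) (mul_mem (intCast_mem _ _) (pow_mem (hu j hj) _)))
        (mul_mem (pow_mem hh _) (mul_mem (intCast_mem _ _) (mul_mem p_mem (pow_mem (hu j hj) _))))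
    · ring
  have s3 : Cg p 3 (∑ j ∈ range h, w j) (p * (((β : ℚ) / 8 - 7 * α / 24) * H h 3)) := by
    have a1 : Cg p 3 (∑ j ∈ range h, w j) (1 / 4 * α * H h 2 + 1 / 8 * β * (p * H h 3) +
        1 / 16 * γ * ((p : ℚ) ^ 2 * H h 4)) := by
      rw [H, H, H]
      simp only [Finset.mul_sum]
      rw [← Finset.sum_add_distrib, ← Finset.sum_add_distrib]
      exact Cg.sum fun j hj => hw3 j (mem_range.1 hj)
    have a2 : Cg p 3 (1 / 4 * α * H h 2) (1 / 4 * α * (-(7 / 6) * (p * H h 3))) := by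
      refine (H2 e h7).mul_left (mul_mem ?_ (intCast_mem _ _))
      rw [show (1 / 4 : ℚ) = (1 / 2) ^ 2 by norm_num]
      exact pow_mem hh _
    have a3 : Cg p 3 (1 / 16 * γ * ((p : ℚ) ^ 2 * H h 4)) 0 := by
      have m : (1 / 16 * γ : ℚ) ∈ Zp p := by
        rw [show (1 / 16 : ℚ) = (1 / 2) ^ 4 by norm_num]
        exact mul_mem (pow_mem hh _) (intCast_mem _ _)
      refine (((H4 e h7).pmul 2).mul_left m).trans (Cg.of_eq (by ring))
    refine a1.trans (((a2.add (Cg.refl _)).add a3).trans (Cg.of_eq ?_))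
    ring
  have s1 : Cg p 1 (∑ j ∈ range h, w j) 0 := by
    refine (s3.mono (by norm_num)).trans ⟨((β : ℚ) / 8 - 7 * α / 24) * H h 3, ?_, by ring⟩
    obtain ⟨z, hz, hz'⟩ := s3
    have : (β : ℚ) / 8 - 7 * α / 24 = (1 / 2) ^ 3 * β - (1 / 2) ^ 3 * (α * (7 / 3)) := by ring
    rw [this]
    have h3 : ¬ p ∣ 3 := fun hd => absurd (Nat.le_of_dvd (by norm_num) hd) (by omega)
    have m3 := frac_mem (p := p) (c := 7) h3
    push_cast at m3
    exact mul_mem (sub_mem (mul_mem (pow_mem hh _) (intCast_mem _ _))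
      (mul_mem (pow_mem hh _) (mul_mem (intCast_mem _ _) m3))) (H_mem (by omega) 3)
  have s2 : Cg p 1 (∑ j ∈ range h, w j ^ 2) 0 := by
    have a1 : Cg p 1 (∑ j ∈ range h, w j ^ 2) (1 / 16 * α ^ 2 * H h 4) := by
      rw [H, Finset.mul_sum]
      refine Cg.sum fun j hj => ?_
      have hj := mem_range.1 hj
      have m : (1 / 4 * α * u (j + 1) ^ 2 : ℚ) ∈ Zp p := (hw1 j hj).mem_right (hwm j hj)
      refine ((hw1 j hj).pow m 2).trans (Cg.of_eq (by ring))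
    have m : (1 / 16 * (α : ℚ) ^ 2 : ℚ) ∈ Zp p := by
      rw [show (1 / 16 : ℚ) = (1 / 2) ^ 4 by norm_num]
      exact mul_mem (pow_mem hh _) (pow_mem (intCast_mem _ _) _)
    refine a1.trans (((H4 e h7).mul_left m).trans (Cg.of_eq (by ring)))
  refine (prod5 h2 h hwm s1 s2).trans ?_
  have := (s3.pmul 2)
  refine ((Cg.refl (p := p) (m := 5) 1).add this).trans (Cg.of_eq ?_)
  ring

end Pool.Agent.Helper18SC
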