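import Pool.Agent.Helper18SC.Ex
import Pool.Agent.R440.D518.H

/-!
The first congruence: `∑_{k < p} F(k) C(2k,k)^7 / 256^k ≡ p^3` modulo `p ^ 8`.
-/

set_option autoImplicit false

namespace Pool.Agent.Helper18SC

open Finset Nat Pool.Agent.R440

variable {p : ℕ} [hp : Fact p.Prime]

def GA : List ℤ := [4920, -98052, 852240, -4265247, 13680754, -29584684, 43995352, -44743840,
  30024448, -12169216, 2377728, -73728]

theorem phi_id (y : ℚ) (hy : 1 - 2 * y ≠ 0) :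
    (1 + 2 * y) * (1 - 4 * y) ^ 3 * (1 + 4 * y) ^ 2 * (1 - 6 * y) ^ 2 * (1 - y) ^ 8 *
      ((1 - 2 * y)⁻¹) ^ 11 =
    1 + y ^ 2 * ((-60 : ℤ) + (-136 : ℤ) * y + (870 : ℤ) * y ^ 2 +
      y ^ 3 * (hn y GA * ((1 - 2 * y)⁻¹) ^ 11)) := by
  simp only [GA, hn]
  push_cast
  field_simp
  ring

theorem one_sub_unit {v : ℚ} (hv : v ∈ Zp p) : 1 - 2 * (p * v / 2) ≠ 0 ∧
    (1 - 2 * (p * v / 2))⁻¹ ∈ Zp p := by
  have := one_add_unit (p := p) (v := -v) (neg_mem hv)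
  rw [show 1 - 2 * (p * v / 2) = 1 + p * -v by ring]
  exact this

theorem y_mem (h2 : p ≠ 2) {v : ℚ} (hv : v ∈ Zp p) : (p : ℚ) * v / 2 ∈ Zp p := by
  rw [show (p : ℚ) * v / 2 = 1 / 2 * (p * v) by ring]
  exact mul_mem (half_mem h2) (mul_mem p_mem hv)

/-- the main product of the first congruence -/
theorem prodA {h : ℕ} (e : p = 2 * h + 1) (h7 : 7 ≤ p) :
    Cg p 5 (DD p h 1 * DD p h (-2) ^ 3 * DD p h 2 ^ 2 * DD p h (-3) ^ 2 * DD p h (-(1 / 2)) ^ 8 *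
      ((DD p h (-1))⁻¹) ^ 11) (1 + (p : ℚ) ^ 3 * (1 / 2 * H h 3)) := by
  have h2 : p ≠ 2 := by omega
  have hu : ∀ j < h, u (j + 1) ∈ Zp p := fun j hj => u_mem (by omega) (by omega)
  have := main_prod e h7 (-60) (-136) 870
    (fun j => hn (p * u (j + 1) / 2) GA *
      ((1 - 2 * (p * u (j + 1) / 2))⁻¹) ^ 11)
    (fun j hj => mul_mem (horner_mem (y_mem h2 (hu j hj)) GA)
      (pow_mem (one_sub_unit (hu j hj)).2 _))
  refine ((Cg.of_eq ?_).trans this).trans (Cg.of_eq ?_)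
  · simp only [DD]
    rw [← Finset.prod_inv_distrib]
    simp only [← Finset.prod_pow]
    simp only [← Finset.prod_mul_distrib]
    refine Finset.prod_congr rfl fun j hj => ?_
    have := phi_id (p * u (j + 1) / 2) (one_sub_unit (hu j (mem_range.1 hj))).1
    rw [show (p : ℚ) ^ 2 * (1 / 4 * u (j + 1) ^ 2 * (((-60 : ℤ) : ℚ) +
        ((-136 : ℤ) : ℚ) * (p * u (j + 1) / 2) + ((870 : ℤ) : ℚ) * (p * u (j + 1) / 2) ^ 2 +
        (p * u (j + 1) / 2) ^ 3 * (hn (p * u (j + 1) / 2) GA *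
      ((1 - 2 * (p * u (j + 1) / 2))⁻¹) ^ 11))) =
      (p * u (j + 1) / 2) ^ 2 * (((-60 : ℤ) : ℚ) +
        ((-136 : ℤ) : ℚ) * (p * u (j + 1) / 2) + ((870 : ℤ) : ℚ) * (p * u (j + 1) / 2) ^ 2 +
        (p * u (j + 1) / 2) ^ 3 * (hn (p * u (j + 1) / 2) GA *
      ((1 - 2 * (p * u (j + 1) / 2))⁻¹) ^ 11)) by ring, ← this]
    ring_nf
  · push_cast; ring

open Pool.Agent.R440.D518 in
theorem T_top {h : ℕ} (e : p = 2 * h + 1) :
    (p : ℚ) * T h 0 = (-1) ^ h * DD p h (-1) * FF p 2 * (DD p h 1)⁻¹ := by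
  rw [← choose_half (p := p) e, Nat.cast_choose ℚ (by omega : h ≤ p - 1),
    show p - 1 - h = h by omega]
  unfold T
  rw [show 6 * h + 2 * 0 + 2 = 3 * p - 1 by omega, show 2 * h + 2 * 0 = p - 1 by omega,
    show 3 * h + 0 + 1 = p + h by omega, show h + 0 = h by omega,
    show 4 * h + 0 + 2 = 2 * p by omega, fac_three_p, fac_p_add]
  have h1 : (h ! : ℚ) ≠ 0 := by positivity
  have h2 : ((2 * p)! : ℚ) ≠ 0 := by positivity
  have h3 : ((p - 1)! : ℚ) ≠ 0 := by positivity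
  have h4 : (p : ℚ) ≠ 0 := p_ne
  have h5 := (DD_unit (p := p) (h := h) (by omega) (one_mem _)).1
  rw [fac_p (p := p)]
  simp only [Nat.factorial_zero, Nat.cast_one, mul_one]
  field_simp

open Pool.Agent.R440.D518 in
/-- the main term of the first congruence -/
theorem mainA {h : ℕ} (e : p = 2 * h + 1) (h7 : 7 ≤ p) :
    Cg p 5 (2 * ((2 * p).choose p : ℚ) ^ 3 * ((p * T h 0) ^ 2 / 16) * (((2 : ℚ) ^ (p - 1))⁻¹) ^ 8)
      (1 + (p : ℚ) ^ 3 * (1 / 2 * H h 3)) := by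
  refine (Cg.of_eq ?_).trans (prodA e h7)
  have h1 := (DD_unit (p := p) (h := h) (by omega) (one_mem _)).1
  have h2 := (DD_unit (p := p) (h := h) (by omega) neg_one_mem).1
  have h3 := (DD_unit (p := p) (h := h) (by omega) (neg_half_mem (p := p) (by omega))).1
  have h4 : ((2 : ℚ) ^ (p - 1))⁻¹ = DD p h (-(1 / 2)) * (DD p h (-1))⁻¹ := by
    rw [← two_pow (p := p) e]
    field_simp
  have h5 : ((-1 : ℚ) ^ h) ^ 2 = 1 := by rw [← pow_mul, mul_comm, pow_mul]; norm_num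
  rw [choose_two_p, T_top e, h4, FF_eq e 1, FF_eq e 2]
  rw [show (-(1 + 1) : ℚ) = -2 by norm_num, show (-(2 + 1) : ℚ) = -3 by norm_num]
  field_simp
  rw [h5]
  ring

end Pool.Agent.Helper18SC
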