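import Pool.Agent.Helper18SC.First

/-!
The other terms of the first congruence, and its proof.
-/

set_option autoImplicit false

namespace Pool.Agent.Helper18SC

open Finset Nat Pool.Agent.R440

open Pool.Agent.R440.D518 in
theorem T_step (k m : ℕ) : T (k + 1) m * ((2 * k + 2 * m + 3) * (4 * k + m + 6) * (4 * k + m + 5)) =
    T k (m + 2) * ((6 * k + 2 * m + 7) * (m + 2) * (m + 1)) := by
  unfold T
  rw [show 6 * (k + 1) + 2 * m + 2 = (6 * k + 2 * (m + 2) + 2) + 1 + 1 by ring,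
    show 2 * k + 2 * (m + 2) = (2 * (k + 1) + 2 * m) + 1 + 1 by ring,
    show 3 * (k + 1) + m + 1 = (3 * k + (m + 2) + 1) + 1 by ring,
    show k + (m + 2) = (k + 1 + m) + 1 by ring,
    show 4 * (k + 1) + m + 2 = (4 * k + (m + 2) + 2) + 1 + 1 by ring,
    show m + 2 = m + 1 + 1 by ring]
  simp only [Nat.factorial_succ]
  have z1 : ((6 * k + 2 * (m + 1 + 1) + 2)! : ℚ) ≠ 0 := by positivity
  have z2 : ((2 * (k + 1) + 2 * m)! : ℚ) ≠ 0 := by positivity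
  have z3 : ((3 * k + (m + 1 + 1) + 1)! : ℚ) ≠ 0 := by positivity
  have z4 : ((k + 1 + m)! : ℚ) ≠ 0 := by positivity
  have z5 : ((4 * k + (m + 1 + 1) + 2)! : ℚ) ≠ 0 := by positivity
  have z6 : (m ! : ℚ) ≠ 0 := by positivity
  push_cast
  field_simp
  ring

variable {p : ℕ} [hp : Fact p.Prime]

open Pool.Agent.R440.D518 in
/-- `T / p` -/
noncomputable def th (p k : ℕ) : ℚ := T k (p - 1 - 2 * k) / p

open Pool.Agent.R440.D518 in
theorem th_zero : th p 0 = 2 * FF p 1 ^ 2 * ((2 * (p : ℚ) + (-1))⁻¹ * (1 * (p : ℚ) + 1)⁻¹) := by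
  have h0 := hp.out.two_le
  have h1 := two_p_sub_two (p := p)
  have h2 := fac_two_p (p := p)
  have h3 := fac_p (p := p)
  have h4 : ((p + 1)! : ℚ) = (p + 1) * (p ! : ℚ) := by rw [Nat.factorial_succ]; push_cast; ring
  have z1 : (p ! : ℚ) ≠ 0 := by positivity
  have z2 : (p : ℚ) ≠ 0 := p_ne
  have z3 : ((p - 1)! : ℚ) ≠ 0 := by positivity
  have z4 : (2 * (p : ℚ) - 1) ≠ 0 := by
    have : (2 : ℚ) ≤ p := by exact_mod_cast h0
    linarith
  have z5 : (p : ℚ) + 1 ≠ 0 := by positivity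
  unfold th T
  rw [show 6 * 0 + 2 * (p - 1 - 2 * 0) + 2 = 2 * p by omega,
    show 2 * 0 + 2 * (p - 1 - 2 * 0) = 2 * p - 2 by omega,
    show 3 * 0 + (p - 1 - 2 * 0) + 1 = p by omega,
    show 4 * 0 + (p - 1 - 2 * 0) + 2 = p + 1 by omega,
    show 0 + (p - 1 - 2 * 0) = p - 1 by omega,
    show p - 1 - 2 * 0 = p - 1 by omega, h4]
  have h5 : ((2 * p - 2)! : ℚ) = ((2 * p)! : ℚ) / (2 * p * (2 * p - 1)) := by
    rw [eq_div_iff (by positivity), h1]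
  rw [h5, h2, h3]
  rw [show (2 * (p : ℚ) + (-1)) = 2 * p - 1 by ring, one_mul]
  field_simp

open Pool.Agent.R440.D518 in
theorem th_step {k : ℕ} (hk : 2 * k + 3 < p) : th p (k + 1) = th p k *
    ((2 * (p : ℚ) + ((2 * k + 1 : ℕ) : ℚ)) * ((-1 * (p : ℚ) + ((2 * k + 1 : ℕ) : ℚ)) *
      (-1 * (p : ℚ) + ((2 * k + 2 : ℕ) : ℚ))) *
      ((1 * (p : ℚ) + ((2 * k + 3 : ℕ) : ℚ))⁻¹ * ((1 * (p : ℚ) + ((2 * k + 2 : ℕ) : ℚ))⁻¹ *
        (2 * (p : ℚ) + (-((2 * k + 3 : ℕ) : ℚ)))⁻¹))) := by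
  obtain ⟨m, hm⟩ : ∃ m, p = 2 * k + 3 + m := ⟨p - (2 * k + 3), by omega⟩
  have h1 := T_step k m
  have e1 : (m : ℚ) = p - (2 * k + 3) := by rw [hm]; push_cast; ring
  unfold th
  rw [show p - 1 - 2 * (k + 1) = m by omega, show p - 1 - 2 * k = m + 2 by omega]
  have z0 : (0 : ℚ) < p := by exact_mod_cast hp.out.pos
  have z1 : (1 * (p : ℚ) + ((2 * k + 3 : ℕ) : ℚ)) ≠ 0 := by positivity
  have z2 : (1 * (p : ℚ) + ((2 * k + 2 : ℕ) : ℚ)) ≠ 0 := by positivity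
  have z3 : (2 * (p : ℚ) + (-((2 * k + 3 : ℕ) : ℚ))) ≠ 0 := by
    have : ((2 * k + 3 : ℕ) : ℚ) < p := by exact_mod_cast hk
    linarith
  rw [e1] at h1
  have h2 : T (k + 1) m * ((2 * (p : ℚ) + (-((2 * k + 3 : ℕ) : ℚ))) *
      (1 * (p : ℚ) + ((2 * k + 3 : ℕ) : ℚ)) *
      (1 * (p : ℚ) + ((2 * k + 2 : ℕ) : ℚ))) = T k (m + 2) * ((2 * (p : ℚ) + ((2 * k + 1 : ℕ) : ℚ)) *
      ((-1 * (p : ℚ) + ((2 * k + 1 : ℕ) : ℚ)) * (-1 * (p : ℚ) + ((2 * k + 2 : ℕ) : ℚ)))) := by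
    push_cast
    linear_combination h1
  have z4 : (p : ℚ) ≠ 0 := z0.ne'
  generalize (2 * (p : ℚ) + (-((2 * k + 3 : ℕ) : ℚ))) = B1 at *
  generalize (1 * (p : ℚ) + ((2 * k + 3 : ℕ) : ℚ)) = B2 at *
  generalize (1 * (p : ℚ) + ((2 * k + 2 : ℕ) : ℚ)) = B3 at *
  rw [div_eq_iff z4]
  have h3 : T (k + 1) m = T k (m + 2) * ((2 * (p : ℚ) + ((2 * k + 1 : ℕ) : ℚ)) *
      ((-1 * (p : ℚ) + ((2 * k + 1 : ℕ) : ℚ)) * (-1 * (p : ℚ) + ((2 * k + 2 : ℕ) : ℚ)))) /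
      (B1 * B2 * B3) := by
    rw [eq_div_iff (by positivity), h2]
  rw [h3]
  field_simp

theorem H_succ (k : ℕ) : H (k + 1) 1 = H k 1 + u (k + 1) := by
  unfold H; rw [Finset.sum_range_succ]; simp

theorem H_zero : H 0 1 = 0 := by simp [H]

theorem nat_ne {n : ℕ} (h : 0 < n) : (n : ℚ) ≠ 0 := by exact_mod_cast h.ne'

/-- the expansion of `T / p` -/
theorem th_ex {h : ℕ} (e : p = 2 * h + 1) (k : ℕ) (hk : k < h) :
    Ex p (th p k) (2 * (-1) ^ (k + 1) * u (2 * k + 1) ^ 2)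
      (2 * (H (2 * k) 1 - H k 1) + u (2 * k + 1)) := by
  induction k with
  | zero =>
    rw [th_zero]
    have a1 := (Ex_A e).pow 2
    have a2 := Ex.lin_inv (p := p) (a := 2) (b := -1) (num_mem 2) neg_one_mem (by norm_num)
      (by norm_num)
    have a3 := Ex.lin_inv (p := p) (a := 1) (b := 1) (one_mem _) (one_mem _) (by norm_num)
      (by norm_num)
    have a4 : Ex p 2 2 0 := ⟨num_mem 2, zero_mem _, Cg.of_eq (by ring)⟩
    refine ((a4.mul a1).mul (a2.mul a3)).congr rfl ?_ ?_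
    · norm_num [u]
    · rw [show 2 * 0 = 0 by rfl, H_zero]; norm_num [u]
  | succ k ih =>
    have ih := ih (by omega)
    rw [th_step (by omega)]
    have b : ∀ n : ℕ, 0 < n → n < p → ((n : ℚ) ∈ Zp p ∧ (n : ℚ) ≠ 0 ∧ (n : ℚ)⁻¹ ∈ Zp p) :=
      fun n h0 h1 => ⟨num_mem n, nat_ne h0, inv_small h0 h1⟩
    obtain ⟨m1, n1, i1⟩ := b (2 * k + 1) (by omega) (by omega)
    obtain ⟨m2, n2, i2⟩ := b (2 * k + 2) (by omega) (by omega)
    obtain ⟨m3, n3, i3⟩ := b (2 * k + 3) (by omega) (by omega)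
    have a1 := Ex.lin (p := p) (a := 2) (num_mem 2) m1 n1 i1
    have a2 := Ex.lin (p := p) (a := -1) neg_one_mem m1 n1 i1
    have a3 := Ex.lin (p := p) (a := -1) neg_one_mem m2 n2 i2
    have a4 := Ex.lin_inv (p := p) (a := 1) (one_mem _) m3 n3 i3
    have a5 := Ex.lin_inv (p := p) (a := 1) (one_mem _) m2 n2 i2
    have a6 := Ex.lin_inv (p := p) (a := 2) (num_mem 2) (neg_mem m3) (neg_ne_zero.2 n3)
      (by rw [inv_neg]; exact neg_mem i3)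
    refine (ih.mul ((a1.mul (a2.mul a3)).mul (a4.mul (a5.mul a6)))).congr rfl ?_ ?_
    · rw [show 2 * (k + 1) + 1 = 2 * k + 3 by ring]
      unfold u
      rw [pow_succ (-1 : ℚ) (k + 1)]
      field_simp
    · rw [show 2 * (k + 1) + 1 = 2 * k + 3 by ring, show 2 * (k + 1) = 2 * k + 1 + 1 by ring,
        H_succ, H_succ, H_succ, show 2 * k + 1 + 1 = 2 * k + 2 by ring]
      have h3 : u (k + 1) = 2 * u (2 * k + 2) := by
        rw [show 2 * k + 2 = 2 * (k + 1) by ring, u_two]; ring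
      rw [h3, inv_neg]
      unfold u
      ring

/-- the fourth powers of the odd numbers -/
theorem A4 {h : ℕ} (e : p = 2 * h + 1) (h7 : 7 ≤ p) :
    Cg p 1 (∑ k ∈ range h, u (2 * k + 1) ^ 4) 0 := by
  have r : ∑ k ∈ range h, u (2 * k + 1) ^ 4 = ∑ j ∈ range h, u (p - 2 * (j + 1)) ^ 4 := by
    rw [← Finset.sum_range_reflect]
    refine Finset.sum_congr rfl fun j hj => ?_
    rw [mem_range] at hj
    congr 2; omega
  have m := frac_mem (p := p) (c := 1) (d := 2 ^ 4) (not_dvd_two_pow (by omega))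
  rw [r]
  have a : Cg p 1 (∑ j ∈ range h, u (p - 2 * (j + 1)) ^ 4) (1 / 2 ^ 4 * H h 4) := by
    rw [H, Finset.mul_sum]
    refine Cg.sum fun j hj => ?_
    rw [mem_range] at hj
    refine (u_rev1' (p := p) (n := 2 * (j + 1)) (by omega) (by omega) 4).trans (Cg.of_eq ?_)
    rw [u_two]; ring
  push_cast at m
  exact a.trans (((H4 e h7).mul_left m).trans (Cg.of_eq (by ring)))

/-- the general sum of the small terms: if `q k ≡ ± a u(2k+1)^2 (1 + p (b (H_{2k} - H_k) + c u(2k+1)))` -/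
theorem small_sum {h : ℕ} (e : p = 2 * h + 1) (h7 : 7 ≤ p) (q : ℕ → ℚ) (a b c : ℤ)
    (hq : ∀ k < h, Cg p 2 (q k) (a * u (2 * k + 1) ^ 3 *
      (1 + p * (b * (H (2 * k) 1 - H k 1) + c * u (2 * k + 1))))) :
    Cg p 2 (∑ k ∈ range h, q k)
      (-(a / 8 : ℚ) * H h 3 + p * ((a * b / 8 : ℚ) * (H h 1 * H h 3))) := by
  have h1 : Cg p 2 (∑ k ∈ range h, q k) (a * (∑ k ∈ range h, u (2 * k + 1) ^ 3) +
      a * b * (p * ∑ k ∈ range h, (H (2 * k) 1 - H k 1) * u (2 * k + 1) ^ 3) +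
      a * c * (p * ∑ k ∈ range h, u (2 * k + 1) ^ 4)) := by
    simp only [Finset.mul_sum]
    rw [← Finset.sum_add_distrib, ← Finset.sum_add_distrib]
    refine Cg.sum fun k hk => (hq k (mem_range.1 hk)).trans (Cg.of_eq ?_)
    ring
  have ma : (a : ℚ) ∈ Zp p := intCast_mem _ a
  have mb : (b : ℚ) ∈ Zp p := intCast_mem _ b
  have mc : (c : ℚ) ∈ Zp p := intCast_mem _ c
  have h2 := (A3 e h7).mul_left ma
  have h3 := ((weight_four e h7).pmul 1).mul_left (mul_mem ma mb)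
  have h4 := ((A4 e h7).pmul 1).mul_left (mul_mem ma mc)
  rw [show (p : ℚ) ^ 1 = p by ring] at h3 h4
  refine h1.trans (((h2.add h3).add h4).trans (Cg.of_eq ?_))
  ring

end Pool.Agent.Helper18SC
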