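import Pool.Agent.Helper18SC.FirstB

/-!
The first congruence, assembled.
-/

set_option autoImplicit false

namespace Pool.Agent.Helper18SC

open Finset Nat Pool.Agent.R440

variable {p : ℕ} [hp : Fact p.Prime]

open Pool.Agent.R440.D518 in
/-- closed form of the first sum -/
theorem closedA {h : ℕ} (e : p = 2 * h + 1) (h7 : 7 ≤ p) :
    ∑ k ∈ range p, (21 * (k : ℚ) ^ 3 + 22 * k ^ 2 + 8 * k + 1) / 256 ^ k *
      ((2 * k).choose k : ℚ) ^ 7 =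
    (p : ℚ) ^ 3 * (2 * ((2 * p).choose p : ℚ) ^ 3 * ((p * T h 0) ^ 2 / 16) *
      (((2 : ℚ) ^ (p - 1))⁻¹) ^ 8 + (p : ℚ) ^ 3 * ((FF p 1 ^ 3 * (((2 : ℚ) ^ (p - 1))⁻¹) ^ 8) *
        ∑ k ∈ range h, ((2 * k + 1 : ℕ) : ℚ) * th p k ^ 2)) := by
  have ha1 : aseq 1 = 2 := by rw [aseq]
  have h1 := a_closed aseq ha1 aseq_rec (p - 1) (by omega)
  rw [a_eq aseq ha1 aseq_rec (p - 1) (by omega), show p - 1 + 1 = p by omega] at h1
  have h2 : ((p - 1 : ℕ) : ℚ) + 1 = p := by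
    rw [Nat.cast_sub (by omega)]; push_cast; ring
  rw [h2, show (p - 1) / 2 + 1 = h + 1 by omega, Finset.sum_range_succ] at h1
  have h3 : t h (p - 1 - 2 * h) = (p * T h 0) ^ 2 / 16 := by
    rw [show p - 1 - 2 * h = 0 by omega]
    unfold t
    rw [show 2 * h + 1 + 0 = p by omega]
    try rw [← e]
    ring
  have h4 : ∀ k ∈ range h, t k (p - 1 - 2 * k) =
      (p : ℚ) ^ 3 * (((2 * k + 1 : ℕ) : ℚ) * th p k ^ 2) / 16 := by
    intro k hk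
    rw [mem_range] at hk
    unfold t th
    rw [show 2 * k + 1 + (p - 1 - 2 * k) = p by omega]
    have : (p : ℚ) ≠ 0 := p_ne
    field_simp
  rw [h3, Finset.sum_congr rfl h4] at h1
  have h5 : ∑ k ∈ range p, (21 * (k : ℚ) ^ 3 + 22 * k ^ 2 + 8 * k + 1) / 256 ^ k *
      ((2 * k).choose k : ℚ) ^ 7 = 2 * ∑ j ∈ range p, s j := by
    rw [Finset.mul_sum]
    refine Finset.sum_congr rfl fun k _ => ?_
    unfold s
    field_simp
  have h6 : ((256 : ℚ) ^ (p - 1)) = ((2 : ℚ) ^ (p - 1)) ^ 8 := by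
    rw [← pow_mul, mul_comm, pow_mul]; norm_num
  have h7 : ((2 : ℚ) ^ (p - 1)) ≠ 0 := by positivity
  rw [h6] at h1
  have h8 : ∑ j ∈ range p, s j = ((p : ℚ) ^ 3 * ((2 * p).choose p : ℚ) ^ 3 *
      (∑ k ∈ range h, (p : ℚ) ^ 3 * (((2 * k + 1 : ℕ) : ℚ) * th p k ^ 2) / 16 +
        (p * T h 0) ^ 2 / 16)) * (((2 : ℚ) ^ (p - 1))⁻¹) ^ 8 := by
    rw [h1]
    field_simp
  rw [h5, h8]
  have h9 : ∑ k ∈ range h, (p : ℚ) ^ 3 * (((2 * k + 1 : ℕ) : ℚ) * th p k ^ 2) / 16 =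
      (p : ℚ) ^ 3 / 16 * ∑ k ∈ range h, ((2 * k + 1 : ℕ) : ℚ) * th p k ^ 2 := by
    rw [Finset.mul_sum]
    exact Finset.sum_congr rfl fun k _ => by ring
  rw [h9, choose_two_p]
  ring

/-- **The first congruence** for `p ≥ 7`. -/
theorem first {h : ℕ} (e : p = 2 * h + 1) (h7 : 7 ≤ p) :
    Cg p 8 (∑ k ∈ range p, (21 * (k : ℚ) ^ 3 + 22 * k ^ 2 + 8 * k + 1) / 256 ^ k *
      ((2 * k).choose k : ℚ) ^ 7) ((p : ℚ) ^ 3) := by
  have h2 : p ≠ 2 := by omega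
  rw [closedA e h7]
  have h3 : Cg p 2 (∑ k ∈ range h, ((2 * k + 1 : ℕ) : ℚ) * th p k ^ 2)
      (-(1 / 2) * H h 3 + p * (2 * (H h 1 * H h 3))) := by
    refine (small_sum e h7 (fun k => ((2 * k + 1 : ℕ) : ℚ) * th p k ^ 2) 4 4 2 ?_).trans
      (Cg.of_eq ?_)
    · intro k hk
      have a1 := ((th_ex e k hk).pow 2).h.mul_left (num_mem (p := p) (2 * k + 1))
      refine a1.trans (Cg.of_eq ?_)
      have a2 : ((2 * k + 1 : ℕ) : ℚ) * u (2 * k + 1) = 1 := by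
        unfold u
        have := nat_ne (n := 2 * k + 1) (by omega)
        field_simp
      have a3 : ((-1 : ℚ) ^ (k + 1)) ^ 2 = 1 := by rw [← pow_mul, mul_comm, pow_mul]; norm_num
      push_cast at a2 ⊢
      calc _ = 4 * ((-1 : ℚ) ^ (k + 1)) ^ 2 * ((2 * (k : ℚ) + 1) * u (2 * k + 1)) *
            u (2 * k + 1) ^ 3 * (1 + p * (2 * (2 * (H (2 * k) 1 - H k 1) + u (2 * k + 1)))) := by
            ring
        _ = _ := by rw [a2, a3]; ring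
    · push_cast; ring
  have h4 := (((Ex_A e).pow 3).mul ((Ex_two e h2).pow 8)).h
  have mH1 : H h 1 ∈ Zp p := H_mem (by omega) 1
  have mH3 : H h 3 ∈ Zp p := H_mem (by omega) 3
  have h5 : Cg p 2 ((FF p 1 ^ 3 * (((2 : ℚ) ^ (p - 1))⁻¹) ^ 8) *
        ∑ k ∈ range h, ((2 * k + 1 : ℕ) : ℚ) * th p k ^ 2) (-(1 / 2) * H h 3) := by
    refine (h4.mul' h3 ?_ ?_).trans ⟨8 * (H h 1 ^ 2 * H h 3), ?_, ?_⟩
    · refine mul_mem (mul_mem (pow_mem (one_mem _) _) (pow_mem (one_mem _) _))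
        (add_mem (one_mem _) (mul_mem p_mem (add_mem (mul_mem (natCast_mem _ _) (zero_mem _))
          (mul_mem (natCast_mem _ _) (mul_mem (half_mem h2) mH1)))))
    · exact add_mem (mul_mem (neg_half_mem h2) mH3) (mul_mem p_mem (mul_mem (natCast_mem _ 2)
        (mul_mem mH1 mH3)))
    · exact mul_mem (natCast_mem _ 8) (mul_mem (pow_mem mH1 _) mH3)
    · push_cast; ring
  have h6 := (mainA e h7).add (h5.pmul 3)
  have h8 := h6.pmul 3
  refine h8.trans (Cg.of_eq ?_)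
  ring

end Pool.Agent.Helper18SC
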