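import Pool.Agent.Helper18SC.Har

/-!
A congruence of weight four: `∑_{k < h} (H_{2k} - H_k) / (2k+1)^3 ≡ H_h^{(1)} H_h^{(3)} / 8` modulo `p`.

It follows from `1/(ab) + 1/(bc) + 1/(ca) = p/(abc)` for `a + b + c = p`.
-/

set_option autoImplicit false

namespace Pool.Agent.Helper18SC

open Finset Pool.Agent.R440

/-- pairs with `a + b < p` -/
def TT (p : ℕ) : Finset (ℕ × ℕ) := (Ico 1 p ×ˢ Ico 1 p).filter fun x => x.1 + x.2 < p

/-- pairs with `a < b` -/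
def LL (p : ℕ) : Finset (ℕ × ℕ) := (Ico 1 p ×ˢ Ico 1 p).filter fun x => x.1 < x.2

theorem mem_TT {p : ℕ} {x : ℕ × ℕ} : x ∈ TT p ↔ 0 < x.1 ∧ 0 < x.2 ∧ x.1 + x.2 < p := by
  unfold TT
  simp only [mem_filter, mem_product, mem_Ico]
  omega

theorem mem_LL {p : ℕ} {x : ℕ × ℕ} : x ∈ LL p ↔ 0 < x.1 ∧ x.1 < x.2 ∧ x.2 < p := by
  unfold LL
  simp only [mem_filter, mem_product, mem_Ico]
  omega

theorem TL {p : ℕ} (f : ℕ → ℕ → ℚ) :
    ∑ x ∈ TT p, f x.1 x.2 = ∑ x ∈ LL p, f x.1 (p - x.2) := by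
  refine Finset.sum_nbij' (fun x => (x.1, p - x.2)) (fun x => (x.1, p - x.2)) ?_ ?_ ?_ ?_ ?_
  · intro x hx; rw [mem_TT] at hx; rw [mem_LL]; simp only; omega
  · intro x hx; rw [mem_LL] at hx; rw [mem_TT]; simp only; omega
  · intro x hx; rw [mem_TT] at hx; ext <;> simp only; omega
  · intro x hx; rw [mem_LL] at hx; ext <;> simp only; omega
  · intro x hx
    rw [mem_TT] at hx
    simp only
    congr 1; omega

theorem swapT {p : ℕ} (f : ℕ → ℕ → ℚ) :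
    ∑ x ∈ TT p, f x.1 x.2 = ∑ x ∈ TT p, f x.2 x.1 := by
  refine Finset.sum_nbij' (fun x => (x.2, x.1)) (fun x => (x.2, x.1)) ?_ ?_ ?_ ?_ ?_
  · intro x hx; rw [mem_TT] at hx ⊢; simp only; omega
  · intro x hx; rw [mem_TT] at hx ⊢; simp only; omega
  · intro x _; rfl
  · intro x _; rfl
  · intro x _; rfl

/-- exchange of the second and the third variable -/
theorem swap23 {p : ℕ} (f : ℕ → ℕ → ℕ → ℚ) :
    ∑ x ∈ TT p, f x.1 x.2 (p - x.1 - x.2) = ∑ x ∈ TT p, f x.1 (p - x.1 - x.2) x.2 := by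
  refine Finset.sum_nbij' (fun x => (x.1, p - x.1 - x.2)) (fun x => (x.1, p - x.1 - x.2))
    ?_ ?_ ?_ ?_ ?_
  · intro x hx; rw [mem_TT] at hx ⊢; simp only; omega
  · intro x hx; rw [mem_TT] at hx ⊢; simp only; omega
  · intro x hx; rw [mem_TT] at hx; ext <;> simp only; omega
  · intro x hx; rw [mem_TT] at hx; ext <;> simp only; omega
  · intro x hx
    rw [mem_TT] at hx
    simp only
    rw [show p - x.1 - (p - x.1 - x.2) = x.2 by omega]

/-- the pair of the second and the third variable -/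
theorem rot {p : ℕ} (f : ℕ → ℕ → ℕ → ℚ) :
    ∑ x ∈ TT p, f x.1 x.2 (p - x.1 - x.2) = ∑ x ∈ TT p, f (p - x.1 - x.2) x.1 x.2 := by
  refine Finset.sum_nbij' (fun x => (x.2, p - x.1 - x.2)) (fun x => (p - x.1 - x.2, x.1))
    ?_ ?_ ?_ ?_ ?_
  · intro x hx; rw [mem_TT] at hx ⊢; simp only; omega
  · intro x hx; rw [mem_TT] at hx ⊢; simp only; omega
  · intro x hx; rw [mem_TT] at hx; ext <;> simp only; omega
  · intro x hx; rw [mem_TT] at hx; ext <;> simp only; omega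
  · intro x hx
    rw [mem_TT] at hx
    simp only
    rw [show p - x.2 - (p - x.1 - x.2) = x.1 by omega]

theorem revL {p : ℕ} (f : ℕ → ℕ → ℚ) :
    ∑ x ∈ LL p, f x.1 x.2 = ∑ x ∈ LL p, f (p - x.2) (p - x.1) := by
  refine Finset.sum_nbij' (fun x => (p - x.2, p - x.1)) (fun x => (p - x.2, p - x.1)) ?_ ?_ ?_ ?_ ?_
  · intro x hx; rw [mem_LL] at hx ⊢; simp only; omega
  · intro x hx; rw [mem_LL] at hx ⊢; simp only; omega
  · intro x hx; rw [mem_LL] at hx; ext <;> simp only <;> omega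
  · intro x hx; rw [mem_LL] at hx; ext <;> simp only <;> omega
  · intro x hx
    rw [mem_LL] at hx
    simp only
    congr 1 <;> omega

/-- product of two sums -/
theorem sum_mul {p : ℕ} (f g : ℕ → ℚ) :
    (∑ n ∈ Ico 1 p, f n) * (∑ n ∈ Ico 1 p, g n) =
      ∑ x ∈ LL p, f x.1 * g x.2 + ∑ x ∈ LL p, f x.2 * g x.1 + ∑ n ∈ Ico 1 p, f n * g n := by
  rw [Finset.sum_mul_sum, ← Finset.sum_product']
  rw [← Finset.sum_filter_add_sum_filter_not (Ico 1 p ×ˢ Ico 1 p) (fun x => x.1 < x.2), add_assoc]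
  congr 1
  rw [← Finset.sum_filter_add_sum_filter_not
    ((Ico 1 p ×ˢ Ico 1 p).filter fun x => ¬ x.1 < x.2) (fun x => x.2 < x.1)]
  congr 1
  · refine Finset.sum_nbij' (fun x => (x.2, x.1)) (fun x => (x.2, x.1)) ?_ ?_ ?_ ?_ ?_
    · intro x hx; rw [mem_LL]; simp only [mem_filter, mem_product, mem_Ico] at hx ⊢; omega
    · intro x hx; rw [mem_LL] at hx; simp only [mem_filter, mem_product, mem_Ico] at hx ⊢; omega
    · intro x _; rfl
    · intro x _; rfl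
    · intro x _; rfl
  · refine Finset.sum_nbij' (fun x => x.1) (fun n => (n, n)) ?_ ?_ ?_ ?_ ?_
    · intro x hx; simp only [mem_filter, mem_product, mem_Ico] at hx ⊢; omega
    · intro x hx; simp only [mem_filter, mem_product, mem_Ico] at hx ⊢; omega
    · intro x hx
      simp only [mem_filter, mem_product, mem_Ico] at hx
      ext
      · rfl
      · simp only; omega
    · intro x _; rfl
    · intro x hx
      simp only [mem_filter, mem_product, mem_Ico] at hx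
      have : x.1 = x.2 := by omega
      rw [this]

/-- the sign -/
def ep (n : ℕ) : ℚ := (-1) ^ n

theorem ep_sq (n : ℕ) : ep n * ep n = 1 := by
  unfold ep; rw [← mul_pow]; norm_num

theorem ep_add (m n : ℕ) : ep (m + n) = ep m * ep n := by unfold ep; rw [pow_add]

theorem ep_two (n : ℕ) : ep (2 * n) = 1 := by unfold ep; rw [pow_mul]; norm_num

variable {p : ℕ} [hp : Fact p.Prime]

theorem ep_mem (n : ℕ) : ep n ∈ Zp p := pow_mem (neg_mem (one_mem _)) n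

omit hp in
theorem ep_rev {h : ℕ} (e : p = 2 * h + 1) {n : ℕ} (hn : n < p) : ep (p - n) = - ep n := by
  have h1 : ep (p - n) * ep n = ep p := by rw [← ep_add]; congr 1; omega
  have h2 : ep p = -1 := by rw [e, ep_add, ep_two]; simp [ep]
  calc ep (p - n) = ep (p - n) * ep n * ep n := by rw [mul_assoc, ep_sq, mul_one]
    _ = - ep n := by rw [h1, h2]; ring

/-- the basic relation -/
theorem tri {a b : ℕ} (ha : 0 < a) (hb : 0 < b) (hab : a + b < p) :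
    u a * u b + u b * u (p - a - b) + u (p - a - b) * u a = p * (u a * u b * u (p - a - b)) := by
  unfold u
  have h1 := u_ne ha
  have h2 := u_ne hb
  have h3 : ((p - a - b : ℕ) : ℚ) = (p : ℚ) - a - b := by
    rw [Nat.sub_sub, Nat.cast_sub hab.le]; push_cast; ring
  have h4 : (p : ℚ) - a - b ≠ 0 := by rw [← h3]; exact u_ne (by omega)
  rw [h3]
  field_simp
  ring

theorem u_rev1' {n : ℕ} (h0 : 0 < n) (h : n < p) (r : ℕ) :
    Cg p 1 (u (p - n) ^ r) ((- u n) ^ r) :=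
  (u_rev1 h0 h).pow (neg_mem (u_mem h0 h)) r

theorem four_zero {h : ℕ} (e : p = 2 * h + 1) (h7 : 7 ≤ p) :
    Cg p 1 (∑ n ∈ Ico 1 p, u n ^ 4) 0 := by
  have a1 : Cg p 1 (∑ n ∈ Ico 1 p, u n ^ 4) (2 * H h 4) := by
    rw [pair_sum' e, H, Finset.mul_sum]
    refine Cg.sum fun j hj => ?_
    rw [mem_range] at hj
    have := u_rev1' (p := p) (n := j + 1) (by omega) (by omega) 4
    rw [two_mul]
    exact (Cg.refl _).add (this.trans (Cg.of_eq (by ring)))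
  have := (H4 e h7).mul_left (num_mem (p := p) 2)
  refine a1.trans (this.trans (Cg.of_eq (by ring)))

theorem E1 {h : ℕ} (e : p = 2 * h + 1) :
    Cg p 1 (∑ n ∈ Ico 1 p, ep n * u n) (H h 1) := by
  rw [parity_sum' e, H]
  refine Cg.sum fun j hj => ?_
  rw [mem_range] at hj
  rw [ep_two, ep_rev e (by omega), ep_two]
  have := (u_rev1' (p := p) (n := 2 * (j + 1)) (by omega) (by omega) 1).neg
  refine ((Cg.refl (1 * u (2 * (j + 1)))).add ((Cg.of_eq ?_).trans this)).trans (Cg.of_eq ?_)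
  · ring
  · rw [u_two]; ring

theorem E2 {h : ℕ} (e : p = 2 * h + 1) :
    Cg p 1 (∑ n ∈ Ico 1 p, ep n * u n ^ 2) 0 := by
  rw [pair_sum' e, show (0 : ℚ) = ∑ j ∈ range h, 0 by simp]
  refine Cg.sum fun j hj => ?_
  rw [mem_range] at hj
  rw [ep_rev e (by omega)]
  have := (u_rev1' (p := p) (n := j + 1) (by omega) (by omega) 2).mul_left
    (neg_mem (ep_mem (p := p) (j + 1)))
  refine ((Cg.refl (ep (j + 1) * u (j + 1) ^ 2)).add this).trans (Cg.of_eq ?_)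
  ring

theorem E3 {h : ℕ} (e : p = 2 * h + 1) :
    Cg p 1 (∑ n ∈ Ico 1 p, ep n * u n ^ 3) (1 / 4 * H h 3) := by
  rw [parity_sum' e, H, Finset.mul_sum]
  refine Cg.sum fun j hj => ?_
  rw [mem_range] at hj
  rw [ep_two, ep_rev e (by omega), ep_two]
  have := (u_rev1' (p := p) (n := 2 * (j + 1)) (by omega) (by omega) 3).neg
  refine ((Cg.refl (1 * u (2 * (j + 1)) ^ 3)).add ((Cg.of_eq ?_).trans this)).trans (Cg.of_eq ?_)
  · ring
  · rw [u_two]; ring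

/-- `∑_{j < n} (-1)^(j+n) / (j n^3)` -/
noncomputable def YY (p : ℕ) : ℚ := ∑ x ∈ LL p, ep x.1 * u x.1 * (ep x.2 * u x.2 ^ 3)

/-- `∑_{j < n} (-1)^j / (j n^3)` -/
noncomputable def XX (p : ℕ) : ℚ := ∑ x ∈ LL p, ep x.1 * u x.1 * u x.2 ^ 3

theorem eu_mem {n : ℕ} (h0 : 0 < n) (h : n < p) (r : ℕ) : ep n * u n ^ r ∈ Zp p :=
  mul_mem (ep_mem n) (pow_mem (u_mem h0 h) r)

theorem YY_two {h : ℕ} (e : p = 2 * h + 1) (h7 : 7 ≤ p) :
    Cg p 1 (2 * YY p) (1 / 4 * (H h 1 * H h 3)) := by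
  have h1 := sum_mul (p := p) (fun n => ep n * u n) (fun n => ep n * u n ^ 3)
  have h2 : Cg p 1 (∑ x ∈ LL p, ep x.2 * u x.2 * (ep x.1 * u x.1 ^ 3)) (YY p) := by
    rw [revL (fun a b => ep b * u b * (ep a * u a ^ 3)), YY]
    refine Cg.sum fun x hx => ?_
    rw [mem_LL] at hx
    rw [ep_rev e (by omega : x.1 < p), ep_rev e hx.2.2]
    have a1 := (u_rev1' (p := p) (n := x.1) (by omega) (by omega) 1).mul_left
      (neg_mem (ep_mem (p := p) x.1))
    have a2 := (u_rev1' (p := p) (n := x.2) (by omega) (by omega) 3).mul_left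
      (neg_mem (ep_mem (p := p) x.2))
    have m1 : -ep x.1 * (-u x.1) ^ 1 ∈ Zp p :=
      mul_mem (neg_mem (ep_mem _)) (pow_mem (neg_mem (u_mem (by omega) (by omega))) _)
    have m2 : -ep x.2 * (-u x.2) ^ 3 ∈ Zp p :=
      mul_mem (neg_mem (ep_mem _)) (pow_mem (neg_mem (u_mem (by omega) (by omega))) _)
    refine ((Cg.of_eq ?_).trans (a1.mul' a2 m1 m2)).trans (Cg.of_eq ?_)
    · ring
    · ring
  have h3 : Cg p 1 (∑ n ∈ Ico 1 p, ep n * u n * (ep n * u n ^ 3)) 0 := by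
    refine (Cg.of_eq (Finset.sum_congr rfl fun n _ => ?_)).trans (four_zero e h7)
    calc ep n * u n * (ep n * u n ^ 3) = (ep n * ep n) * u n ^ 4 := by ring
      _ = u n ^ 4 := by rw [ep_sq]; ring
  have h4 : Cg p 1 ((∑ n ∈ Ico 1 p, ep n * u n) * (∑ n ∈ Ico 1 p, ep n * u n ^ 3)) (2 * YY p) := by
    rw [h1]
    refine ((Cg.refl (YY p)).add h2).add h3 |>.trans (Cg.of_eq ?_)
    ring
  have m1 : H h 1 ∈ Zp p := H_mem (by omega) 1
  have m3 : 1 / 4 * H h 3 ∈ Zp p := by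
    refine mul_mem ?_ (H_mem (by omega) 3)
    have := frac_mem (p := p) (c := 1) (d := 2 ^ 2) (not_dvd_two_pow (by omega))
    norm_num at this ⊢
    exact this
  refine h4.symm.trans (((E1 e).mul' (E3 e) m1 m3).trans (Cg.of_eq ?_))
  ring

theorem Z_zero {h : ℕ} (e : p = 2 * h + 1) (h7 : 7 ≤ p) :
    Cg p 1 (∑ x ∈ LL p, ep x.1 * u x.1 ^ 2 * (ep x.2 * u x.2 ^ 2)) 0 := by
  have h1 := sum_mul (p := p) (fun n => ep n * u n ^ 2) (fun n => ep n * u n ^ 2)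
  have h2 : ∑ x ∈ LL p, ep x.2 * u x.2 ^ 2 * (ep x.1 * u x.1 ^ 2) =
      ∑ x ∈ LL p, ep x.1 * u x.1 ^ 2 * (ep x.2 * u x.2 ^ 2) :=
    Finset.sum_congr rfl fun x _ => by ring
  rw [h2] at h1
  have h3 : Cg p 1 (∑ n ∈ Ico 1 p, ep n * u n ^ 2 * (ep n * u n ^ 2)) 0 := by
    refine (Cg.of_eq (Finset.sum_congr rfl fun n _ => ?_)).trans (four_zero e h7)
    calc ep n * u n ^ 2 * (ep n * u n ^ 2) = (ep n * ep n) * u n ^ 4 := by ring
      _ = u n ^ 4 := by rw [ep_sq]; ring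
  have h4 : Cg p 1 ((∑ n ∈ Ico 1 p, ep n * u n ^ 2) * (∑ n ∈ Ico 1 p, ep n * u n ^ 2)) 0 := by
    refine ((E2 e).mul' (E2 e) (zero_mem _) (zero_mem _)).trans (Cg.of_eq (by ring))
  have h5 := h4.sub h3
  have hh := frac_mem (p := p) (c := 1) (d := 2 ^ 1) (not_dvd_two_pow (by omega))
  refine ((Cg.of_eq ?_).trans (h5.mul_left hh)).trans (Cg.of_eq (by ring))
  rw [h1]
  push_cast
  ring

omit hp in
theorem ep_tri {h : ℕ} (e : p = 2 * h + 1) {b c : ℕ} (hbc : b + c < p) :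
    ep (p - b - c) = - (ep b * ep c) := by
  rw [Nat.sub_sub, ep_rev e hbc, ep_add]

theorem V_mem {x : ℕ × ℕ} (hx : 0 < x.1 ∧ 0 < x.2 ∧ x.1 + x.2 < p) :
    u x.1 ∈ Zp p ∧ u x.2 ∈ Zp p ∧ u (p - x.1 - x.2) ∈ Zp p :=
  ⟨u_mem hx.1 (by omega), u_mem hx.2.1 (by omega), u_mem (by omega) (by omega)⟩

theorem XY {h : ℕ} (e : p = 2 * h + 1) (h7 : 7 ≤ p) : Cg p 1 (XX p) (- YY p) := by
  have r1 : Cg p 1 (∑ x ∈ TT p, (ep x.1 * u x.1 * u x.2 ^ 3 +
      ep x.1 * u x.2 ^ 3 * u (p - x.1 - x.2) +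
      ep x.1 * u x.1 * u x.2 ^ 2 * u (p - x.1 - x.2))) 0 := by
    rw [show (0 : ℚ) = ∑ x ∈ TT p, 0 by simp]
    refine Cg.sum fun x hx => ?_
    rw [mem_TT] at hx
    have ht := tri (p := p) hx.1 hx.2.1 hx.2.2
    obtain ⟨m1, m2, m3⟩ := V_mem hx
    refine ⟨ep x.1 * u x.2 ^ 2 * (u x.1 * u x.2 * u (p - x.1 - x.2)),
      mul_mem (mul_mem (ep_mem _) (pow_mem m2 _)) (mul_mem (mul_mem m1 m2) m3), ?_⟩
    calc _ = ep x.1 * u x.2 ^ 2 * (u x.1 * u x.2 + u x.2 * u (p - x.1 - x.2) +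
            u (p - x.1 - x.2) * u x.1) := by ring
      _ = _ := by rw [ht]; ring
  have r2 : Cg p 1 (∑ x ∈ TT p, (ep x.1 * u x.1 * u x.2 ^ 2 * u (p - x.1 - x.2) +
      ep x.1 * u x.2 ^ 2 * u (p - x.1 - x.2) ^ 2 +
      ep x.1 * u x.1 * u x.2 * u (p - x.1 - x.2) ^ 2)) 0 := by
    rw [show (0 : ℚ) = ∑ x ∈ TT p, 0 by simp]
    refine Cg.sum fun x hx => ?_
    rw [mem_TT] at hx
    have ht := tri (p := p) hx.1 hx.2.1 hx.2.2
    obtain ⟨m1, m2, m3⟩ := V_mem hx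
    refine ⟨ep x.1 * u x.2 * u (p - x.1 - x.2) * (u x.1 * u x.2 * u (p - x.1 - x.2)),
      mul_mem (mul_mem (mul_mem (ep_mem _) m2) m3) (mul_mem (mul_mem m1 m2) m3), ?_⟩
    calc _ = ep x.1 * u x.2 * u (p - x.1 - x.2) * (u x.1 * u x.2 + u x.2 * u (p - x.1 - x.2) +
            u (p - x.1 - x.2) * u x.1) := by ring
      _ = _ := by rw [ht]; ring
  rw [Finset.sum_add_distrib, Finset.sum_add_distrib] at r1 r2
  have hV : ∑ x ∈ TT p, ep x.1 * u x.1 * u x.2 * u (p - x.1 - x.2) ^ 2 =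
      ∑ x ∈ TT p, ep x.1 * u x.1 * u x.2 ^ 2 * u (p - x.1 - x.2) := by
    rw [swap23 (fun a b c => ep a * u a * u b * u c ^ 2)]
    exact Finset.sum_congr rfl fun x _ => by ring
  have hP : Cg p 1 (∑ x ∈ TT p, ep x.1 * u x.1 * u x.2 ^ 3) (- XX p) := by
    rw [TL (fun a b => ep a * u a * u b ^ 3), XX, ← Finset.sum_neg_distrib]
    refine Cg.sum fun x hx => ?_
    rw [mem_LL] at hx
    have m1 : ep x.1 * u x.1 ∈ Zp p := mul_mem (ep_mem _) (u_mem (by omega) (by omega))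
    refine ((u_rev1' (p := p) (n := x.2) (by omega) hx.2.2 3).mul_left m1).trans (Cg.of_eq ?_)
    ring
  have hQ : Cg p 1 (∑ x ∈ TT p, ep x.1 * u x.2 ^ 3 * u (p - x.1 - x.2)) (- YY p) := by
    have q1 : ∑ x ∈ TT p, ep x.1 * u x.2 ^ 3 * u (p - x.1 - x.2) =
        ∑ x ∈ LL p, - (ep (p - x.2) * ep x.1) * u (p - x.2) ^ 3 * u x.1 := by
      rw [rot (fun a b c => ep a * u b ^ 3 * u c)]
      rw [← TL (fun a b => - (ep b * ep a) * u b ^ 3 * u a)]
      rw [swapT (fun a b => - (ep b * ep a) * u b ^ 3 * u a)]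
      refine Finset.sum_congr rfl fun x hx => ?_
      rw [mem_TT] at hx
      rw [ep_tri e hx.2.2]
    rw [q1, YY, ← Finset.sum_neg_distrib]
    refine Cg.sum fun x hx => ?_
    rw [mem_LL] at hx
    rw [ep_rev e hx.2.2]
    have m1 : ep x.2 * ep x.1 * u x.1 ∈ Zp p :=
      mul_mem (mul_mem (ep_mem _) (ep_mem _)) (u_mem (by omega) (by omega))
    refine ((Cg.of_eq ?_).trans
      ((u_rev1' (p := p) (n := x.2) (by omega) hx.2.2 3).mul_left m1)).trans (Cg.of_eq ?_)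
    · ring
    · ring
  have hW : Cg p 1 (∑ x ∈ TT p, ep x.1 * u x.2 ^ 2 * u (p - x.1 - x.2) ^ 2) 0 := by
    have q1 : ∑ x ∈ TT p, ep x.1 * u x.2 ^ 2 * u (p - x.1 - x.2) ^ 2 =
        ∑ x ∈ LL p, - (ep x.1 * ep (p - x.2)) * u x.1 ^ 2 * u (p - x.2) ^ 2 := by
      rw [rot (fun a b c => ep a * u b ^ 2 * u c ^ 2)]
      rw [← TL (fun a b => - (ep a * ep b) * u a ^ 2 * u b ^ 2)]
      refine Finset.sum_congr rfl fun x hx => ?_
      rw [mem_TT] at hx
      rw [ep_tri e hx.2.2]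
    rw [q1]
    refine Cg.trans (Cg.sum fun x hx => ?_) (Z_zero e h7)
    rw [mem_LL] at hx
    rw [ep_rev e hx.2.2]
    have m1 : ep x.1 * ep x.2 * u x.1 ^ 2 ∈ Zp p :=
      mul_mem (mul_mem (ep_mem _) (ep_mem _)) (pow_mem (u_mem (by omega) (by omega)) _)
    refine ((Cg.of_eq ?_).trans
      ((u_rev1' (p := p) (n := x.2) (by omega) hx.2.2 2).mul_left m1)).trans (Cg.of_eq ?_)
    · ring
    · ring
  rw [hV] at r2
  generalize ∑ x ∈ TT p, ep x.1 * u x.1 * u x.2 ^ 2 * u (p - x.1 - x.2) = V at r1 r2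
  generalize ∑ x ∈ TT p, ep x.1 * u x.1 * u x.2 ^ 3 = P at r1 hP
  generalize ∑ x ∈ TT p, ep x.1 * u x.2 ^ 3 * u (p - x.1 - x.2) = Q at r1 hQ
  generalize ∑ x ∈ TT p, ep x.1 * u x.2 ^ 2 * u (p - x.1 - x.2) ^ 2 = W at r2 hW
  have hh := frac_mem (p := p) (c := 1) (d := 2 ^ 1) (not_dvd_two_pow (by omega))
  have v0 : Cg p 1 V 0 := by
    refine ((Cg.of_eq ?_).trans ((r2.sub hW).mul_left hh)).trans (Cg.of_eq (by ring))
    push_cast; ring
  have := ((r1.sub v0).sub hQ).symm.trans (hP |> fun h => (Cg.of_eq (by ring)).trans h)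
  refine ((Cg.of_eq ?_).trans this.neg.symm).trans (Cg.of_eq ?_)
  · ring
  · ring

/-- the alternating harmonic sums -/
theorem alt (k : ℕ) : ∑ j ∈ Ico 1 (2 * k + 1), ep j * u j = H k 1 - H (2 * k) 1 := by
  have h1 : H (2 * k) 1 = ∑ j ∈ Ico 1 (2 * k + 1), u j := by
    rw [H, Finset.sum_Ico_eq_sum_range]
    simp only [Nat.add_sub_cancel, pow_one]
    exact Finset.sum_congr rfl fun i _ => by rw [add_comm]
  rw [h1, parity_sum (fun j => ep j * u j), parity_sum u, H, ← Finset.sum_sub_distrib]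
  refine Finset.sum_congr rfl fun j hj => ?_
  rw [mem_range] at hj
  rw [ep_rev rfl (by omega : 2 * (j + 1) < 2 * k + 1), ep_two, u_two]
  ring

/-- **The congruence of weight four.** -/
theorem weight_four {h : ℕ} (e : p = 2 * h + 1) (h7 : 7 ≤ p) :
    Cg p 1 (∑ k ∈ range h, (H (2 * k) 1 - H k 1) * u (2 * k + 1) ^ 3)
      (1 / 8 * (H h 1 * H h 3)) := by
  have h1 : XX p - YY p = ∑ n ∈ Ico 1 p, (1 - ep n) * u n ^ 3 * ∑ j ∈ Ico 1 n, ep j * u j := by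
    rw [XX, YY, ← Finset.sum_sub_distrib]
    have : ∀ n ∈ Ico 1 p, (1 - ep n) * u n ^ 3 * ∑ j ∈ Ico 1 n, ep j * u j =
        ∑ j ∈ (Ico 1 p).filter (fun j => j < n), (1 - ep n) * u n ^ 3 * (ep j * u j) := by
      intro n hn
      rw [Finset.mul_sum]
      rw [mem_Ico] at hn
      congr 1
      ext j
      simp only [mem_filter, mem_Ico]
      omega
    rw [Finset.sum_congr rfl this, LL]
    rw [Finset.sum_filter, Finset.sum_product, Finset.sum_comm]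
    refine Finset.sum_congr rfl fun n _ => ?_
    rw [Finset.sum_filter]
    refine Finset.sum_congr rfl fun j _ => ?_
    split_ifs
    · ring
    · rfl
  have h2 : XX p - YY p = -2 * ∑ k ∈ range h, (H (2 * k) 1 - H k 1) * u (2 * k + 1) ^ 3 := by
    rw [h1, parity_sum' e, Finset.mul_sum]
    have : ∀ k ∈ range h, -2 * ((H (2 * k) 1 - H k 1) * u (2 * k + 1) ^ 3) =
        2 * (u (2 * k + 1) ^ 3 * ∑ j ∈ Ico 1 (2 * k + 1), ep j * u j) := by
      intro k _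
      rw [alt]; ring
    rw [Finset.sum_congr rfl this, ← Finset.sum_range_reflect]
    refine Finset.sum_congr rfl fun j hj => ?_
    rw [mem_range] at hj
    rw [ep_rev e (by omega : 2 * (h - 1 - j + 1) < p), ep_two,
      show p - 2 * (h - 1 - j + 1) = 2 * j + 1 by omega]
    ring
  have h3 := (XY e h7).sub (Cg.refl (p := p) (m := 1) (YY p))
  rw [h2] at h3
  have hh := frac_mem (p := p) (c := 1) (d := 2 ^ 1) (not_dvd_two_pow (by omega))
  have h4 := (h3.mul_left hh).neg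
  have h5 := (YY_two e h7).mul_left hh
  refine ((Cg.of_eq ?_).trans h4).trans (((Cg.of_eq ?_).trans h5).trans (Cg.of_eq ?_))
  · push_cast; ring
  · push_cast; ring
  · push_cast; ring

end Pool.Agent.Helper18SC
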