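import Pool.Agent.Helper18SC.Cg

/-!
Power sums of the reciprocals of `1, ..., (p-1)/2`.
-/

set_option autoImplicit false

namespace Pool.Agent.Helper18SC

open Finset Pool.Agent.R440

/-- `1 / n` -/
noncomputable def u (n : ℕ) : ℚ := (n : ℚ)⁻¹

/-- `∑_{j ≤ h} 1 / j ^ r` -/
noncomputable def H (h r : ℕ) : ℚ := ∑ j ∈ range h, u (j + 1) ^ r

variable {p : ℕ} [hp : Fact p.Prime]

theorem u_mem {n : ℕ} (h0 : 0 < n) (h : n < p) : u n ∈ Zp p := inv_small h0 h

theorem u_ne {n : ℕ} (h0 : 0 < n) : (n : ℚ) ≠ 0 := by exact_mod_cast h0.ne'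

theorem H_mem {h : ℕ} (hh : h < p) (r : ℕ) : H h r ∈ Zp p :=
  sum_mem fun j hj => pow_mem (u_mem (by omega) (by rw [mem_range] at hj; omega)) r

theorem cast_sub_p {n : ℕ} (h : n < p) : ((p - n : ℕ) : ℚ) = (p : ℚ) - n := by
  rw [Nat.cast_sub h.le]

theorem pn_ne {n : ℕ} (h : n < p) : (p : ℚ) - n ≠ 0 := by
  rw [← cast_sub_p h]; exact u_ne (by omega)

theorem u_rev1 {n : ℕ} (h0 : 0 < n) (h : n < p) : Cg p 1 (u (p - n)) (- u n) := by
  refine ⟨u n * u (p - n), mul_mem (u_mem h0 h) (u_mem (by omega) (by omega)), ?_⟩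
  unfold u
  rw [cast_sub_p h]
  have h1 := u_ne h0
  have h2 := pn_ne h
  field_simp
  ring

theorem u_rev2 {n : ℕ} (h0 : 0 < n) (h : n < p) :
    Cg p 3 (u (p - n) ^ 2) (u n ^ 2 + 2 * p * u n ^ 3 + 3 * p ^ 2 * u n ^ 4) := by
  refine ⟨(4 * n - 3 * p) * u n ^ 4 * u (p - n) ^ 2, ?_, ?_⟩
  · refine mul_mem (mul_mem ?_ (pow_mem (u_mem h0 h) _)) (pow_mem (u_mem (by omega) (by omega)) _)
    exact sub_mem (mul_mem (natCast_mem _ 4) (natCast_mem _ n)) (mul_mem (natCast_mem _ 3) p_mem)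
  · unfold u
    rw [cast_sub_p h]
    have h1 := u_ne h0
    have h2 := pn_ne h
    field_simp
    ring

theorem u_rev3 {n : ℕ} (h0 : 0 < n) (h : n < p) :
    Cg p 2 (u (p - n) ^ 3) (- u n ^ 3 - 3 * p * u n ^ 4) := by
  refine ⟨(6 * n ^ 2 - 8 * p * n + 3 * p ^ 2) * u n ^ 4 * u (p - n) ^ 3, ?_, ?_⟩
  · refine mul_mem (mul_mem ?_ (pow_mem (u_mem h0 h) _)) (pow_mem (u_mem (by omega) (by omega)) _)
    exact add_mem (sub_mem (mul_mem (natCast_mem _ 6) (pow_mem (natCast_mem _ n) _))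
      (mul_mem (mul_mem (natCast_mem _ 8) p_mem) (natCast_mem _ n)))
      (mul_mem (natCast_mem _ 3) (pow_mem p_mem _))
  · unfold u
    rw [cast_sub_p h]
    have h1 := u_ne h0
    have h2 := pn_ne h
    field_simp
    ring

theorem u_two (n : ℕ) : u (2 * n) = u n / 2 := by
  unfold u
  push_cast
  rw [mul_inv]; ring

theorem num_mem (c : ℕ) : (c : ℚ) ∈ Zp p := natCast_mem _ c

theorem frac_mem {c d : ℕ} (hd : ¬ p ∣ d) : (c : ℚ) / d ∈ Zp p := by
  rw [div_eq_mul_inv]; exact mul_mem (num_mem c) (inv_nat_mem hd)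

/-- the two ways to sum an even power -/
theorem H4 {h : ℕ} (e : p = 2 * h + 1) (h7 : 7 ≤ p) : Cg p 1 (H h 4) 0 := by
  have a1 : Cg p 1 (∑ n ∈ Ico 1 p, u n ^ 4) (2 * H h 4) := by
    rw [pair_sum' e, H, Finset.mul_sum]
    refine Cg.sum fun j hj => ?_
    rw [mem_range] at hj
    have := (u_rev1 (p := p) (n := j + 1) (by omega) (by omega)).pow
      (neg_mem (u_mem (by omega) (by omega))) 4
    rw [two_mul]
    refine (Cg.refl _).add (this.trans (Cg.of_eq (by ring)))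
  have a2 : Cg p 1 (∑ n ∈ Ico 1 p, u n ^ 4) (1 / 8 * H h 4) := by
    rw [parity_sum' e, H, Finset.mul_sum]
    refine Cg.sum fun j hj => ?_
    rw [mem_range] at hj
    have := (u_rev1 (p := p) (n := 2 * (j + 1)) (by omega) (by omega)).pow
      (neg_mem (u_mem (by omega) (by omega))) 4
    refine ((Cg.refl _).add this).trans (Cg.of_eq ?_)
    rw [u_two]; ring
  have a3 := (a1.symm.trans a2)
  have a4 : Cg p 1 (15 / 8 * H h 4) 0 := by
    have := a3.sub (Cg.refl (p := p) (m := 1) (1 / 8 * H h 4))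
    refine ((Cg.of_eq ?_).trans this).trans (Cg.of_eq ?_) <;> ring
  have h15 : ¬ p ∣ 15 := by
    intro hd
    have h1 : p ∣ 3 * 5 := by simpa using hd
    rcases hp.out.dvd_mul.1 h1 with h2 | h2
    · exact absurd (Nat.le_of_dvd (by norm_num) h2) (by omega)
    · exact absurd (Nat.le_of_dvd (by norm_num) h2) (by omega)
  have a5 := a4.mul_left (frac_mem (c := 8) h15)
  refine ((Cg.of_eq ?_).trans a5).trans (Cg.of_eq ?_)
  · push_cast; ring
  · ring

theorem not_dvd_two_pow {k : ℕ} (h2 : p ≠ 2) : ¬ p ∣ 2 ^ k := fun h =>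
  h2 ((Nat.prime_dvd_prime_iff_eq hp.out Nat.prime_two).1 (hp.out.dvd_of_dvd_pow h))

theorem H2 {h : ℕ} (e : p = 2 * h + 1) (h7 : 7 ≤ p) :
    Cg p 3 (H h 2) (-(7 / 6) * (p * H h 3)) := by
  have q4 : Cg p 3 (3 * ((p : ℚ) ^ 2 * H h 4)) 0 := by
    have := ((H4 e h7).pmul 2).mul_left (num_mem (p := p) 3)
    simpa using this
  have a1 : Cg p 3 (∑ n ∈ Ico 1 p, u n ^ 2)
      (2 * H h 2 + 2 * (p * H h 3) + 3 * ((p : ℚ) ^ 2 * H h 4)) := by
    rw [pair_sum' e, H, H, H]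
    simp only [Finset.mul_sum]
    rw [← Finset.sum_add_distrib, ← Finset.sum_add_distrib]
    refine Cg.sum fun j hj => ?_
    rw [mem_range] at hj
    have := (u_rev2 (p := p) (n := j + 1) (by omega) (by omega))
    refine ((Cg.refl _).add this).trans (Cg.of_eq (by ring))
  have a2 : Cg p 3 (∑ n ∈ Ico 1 p, u n ^ 2)
      (1 / 2 * H h 2 + 1 / 4 * (p * H h 3) + 3 / 16 * ((p : ℚ) ^ 2 * H h 4)) := by
    rw [parity_sum' e, H, H, H]
    simp only [Finset.mul_sum]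
    rw [← Finset.sum_add_distrib, ← Finset.sum_add_distrib]
    refine Cg.sum fun j hj => ?_
    rw [mem_range] at hj
    have := (u_rev2 (p := p) (n := 2 * (j + 1)) (by omega) (by omega))
    refine ((Cg.refl _).add this).trans (Cg.of_eq ?_)
    rw [u_two]; ring
  have q4' : Cg p 3 (3 / 16 * ((p : ℚ) ^ 2 * H h 4)) 0 := by
    have := q4.mul_left (frac_mem (p := p) (c := 1) (d := 2 ^ 4) (not_dvd_two_pow (by omega)))
    refine ((Cg.of_eq ?_).trans this).trans (Cg.of_eq ?_)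
    · push_cast; ring
    · ring
  have a1' : Cg p 3 (∑ n ∈ Ico 1 p, u n ^ 2) (2 * H h 2 + 2 * (p * H h 3)) := by
    refine (a1.trans ((Cg.refl _).add q4)).trans (Cg.of_eq (by ring))
  have a2' : Cg p 3 (∑ n ∈ Ico 1 p, u n ^ 2) (1 / 2 * H h 2 + 1 / 4 * (p * H h 3)) := by
    refine (a2.trans ((Cg.refl _).add q4')).trans (Cg.of_eq (by ring))
  have a3 := a1'.symm.trans a2'
  have h3 : ¬ p ∣ 3 := fun hd => absurd (Nat.le_of_dvd (by norm_num) hd) (by omega)
  have a4 := a3.mul_left (frac_mem (p := p) (c := 2) h3)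
  have h6 : ¬ p ∣ 6 := by
    intro hd
    have h1 : p ∣ 2 * 3 := by simpa using hd
    rcases hp.out.dvd_mul.1 h1 with h2 | h2
    · exact absurd (Nat.le_of_dvd (by norm_num) h2) (by omega)
    · exact h3 h2
  have a5 := a4.sub (Cg.refl (p := p) (m := 3) (1 / 3 * H h 2 + 4 / 3 * (p * H h 3)))
  refine ((Cg.of_eq ?_).trans a5).trans (Cg.of_eq ?_)
  · push_cast; ring
  · push_cast; ring

/-- the cubes of the odd numbers -/
theorem A3 {h : ℕ} (e : p = 2 * h + 1) (h7 : 7 ≤ p) :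
    Cg p 2 (∑ k ∈ range h, u (2 * k + 1) ^ 3) (-(1 / 8) * H h 3) := by
  have r : ∑ k ∈ range h, u (2 * k + 1) ^ 3 = ∑ j ∈ range h, u (p - 2 * (j + 1)) ^ 3 := by
    rw [← Finset.sum_range_reflect]
    refine Finset.sum_congr rfl fun j hj => ?_
    rw [mem_range] at hj
    congr 2; omega
  have q4 : Cg p 2 (3 / 16 * ((p : ℚ) * H h 4)) 0 := by
    have := ((H4 e h7).pmul 1).mul_left
      (frac_mem (p := p) (c := 3) (d := 2 ^ 4) (not_dvd_two_pow (by omega)))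
    refine ((Cg.of_eq ?_).trans this).trans (Cg.of_eq ?_)
    · push_cast; ring
    · ring
  have a : Cg p 2 (∑ j ∈ range h, u (p - 2 * (j + 1)) ^ 3)
      (-(1 / 8) * H h 3 - 3 / 16 * ((p : ℚ) * H h 4)) := by
    rw [H, H]
    simp only [Finset.mul_sum]
    rw [← Finset.sum_sub_distrib]
    refine Cg.sum fun j hj => ?_
    rw [mem_range] at hj
    refine (u_rev3 (p := p) (n := 2 * (j + 1)) (by omega) (by omega)).trans (Cg.of_eq ?_)
    rw [u_two]; ring
  rw [r]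
  refine a.trans (((Cg.refl _).sub q4).trans (Cg.of_eq (by ring)))

end Pool.Agent.Helper18SC
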