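import Pool.Agent.Helper18SC.Four

/-!
Products over `1, ..., (p-1)/2` modulo `p ^ 5`.
-/

set_option autoImplicit false

namespace Pool.Agent.Helper18SC

open Finset Nat Pool.Agent.R440

variable {p : ℕ} [hp : Fact p.Prime]

theorem half_mem (h2 : p ≠ 2) : (1 / 2 : ℚ) ∈ Zp p := by
  have := frac_mem (p := p) (c := 1) (d := 2 ^ 1) (not_dvd_two_pow h2)
  norm_num at this ⊢
  exact this

theorem prod1 {v : ℕ → ℚ} (n : ℕ) (hv : ∀ i < n, v i ∈ Zp p) :
    Cg p 2 (∏ i ∈ range n, (1 + p * v i)) (1 + p * ∑ i ∈ range n, v i) := by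
  induction n with
  | zero => simpa using Cg.refl (p := p) (m := 2) (1 : ℚ)
  | succ n ih =>
    have h1 := ih fun i hi => hv i (by omega)
    have hn := hv n (by omega)
    have hs : ∑ i ∈ range n, v i ∈ Zp p := sum_mem fun i hi => hv i (by rw [mem_range] at hi; omega)
    rw [Finset.prod_range_succ, Finset.sum_range_succ]
    have m1 : 1 + (p : ℚ) * v n ∈ Zp p := add_mem (one_mem _) (mul_mem p_mem hn)
    refine (h1.mul_right m1).trans ⟨(∑ i ∈ range n, v i) * v n, mul_mem hs hn, ?_⟩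
    ring

theorem prod2 {w : ℕ → ℚ} (h2 : p ≠ 2) (n : ℕ) (hw : ∀ i < n, w i ∈ Zp p) :
    Cg p 6 (∏ i ∈ range n, (1 + (p : ℚ) ^ 2 * w i))
      (1 + (p : ℚ) ^ 2 * ∑ i ∈ range n, w i +
        (p : ℚ) ^ 4 * ((1 / 2) * ((∑ i ∈ range n, w i) ^ 2 - ∑ i ∈ range n, w i ^ 2))) := by
  have hh := half_mem (p := p) h2
  induction n with
  | zero => simpa using Cg.refl (p := p) (m := 6) (1 : ℚ)
  | succ n ih =>
    have h1 := ih fun i hi => hw i (by omega)
    have hn := hw n (by omega)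
    have hs : ∑ i ∈ range n, w i ∈ Zp p := sum_mem fun i hi => hw i (by rw [mem_range] at hi; omega)
    have hs2 : ∑ i ∈ range n, w i ^ 2 ∈ Zp p :=
      sum_mem fun i hi => pow_mem (hw i (by rw [mem_range] at hi; omega)) _
    rw [Finset.prod_range_succ, Finset.sum_range_succ, Finset.sum_range_succ]
    have m1 : 1 + (p : ℚ) ^ 2 * w n ∈ Zp p := add_mem (one_mem _) (mul_mem (pow_mem p_mem _) hn)
    refine (h1.mul_right m1).trans
      ⟨(1 / 2) * ((∑ i ∈ range n, w i) ^ 2 - ∑ i ∈ range n, w i ^ 2) * w n,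
        mul_mem (mul_mem hh (sub_mem (pow_mem hs _) hs2)) hn, ?_⟩
    ring

/-- the product modulo `p ^ 5` when the two power sums vanish modulo `p` -/
theorem prod5 {w : ℕ → ℚ} (h2 : p ≠ 2) (n : ℕ) (hw : ∀ i < n, w i ∈ Zp p)
    (h1 : Cg p 1 (∑ i ∈ range n, w i) 0) (hs : Cg p 1 (∑ i ∈ range n, w i ^ 2) 0) :
    Cg p 5 (∏ i ∈ range n, (1 + (p : ℚ) ^ 2 * w i)) (1 + (p : ℚ) ^ 2 * ∑ i ∈ range n, w i) := by
  have a := (prod2 h2 n hw).mono (by norm_num : 5 ≤ 6)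
  have b : Cg p 1 ((1 / 2) * ((∑ i ∈ range n, w i) ^ 2 - ∑ i ∈ range n, w i ^ 2)) 0 := by
    have := ((h1.pow (zero_mem _) 2).sub hs).mul_left (half_mem (p := p) h2)
    refine this.trans (Cg.of_eq (by ring))
  have c := b.pmul 4
  refine a.trans (((Cg.refl _).add c).trans (Cg.of_eq (by ring)))

/-- a polynomial with integral coefficients -/
def hn (y : ℚ) : List ℤ → ℚ
  | [] => 0
  | c :: l => (c : ℚ) + y * hn y l

theorem horner_mem {y : ℚ} (hy : y ∈ Zp p) (l : List ℤ) : hn y l ∈ Zp p := by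
  induction l with
  | nil => exact zero_mem _
  | cons c l ih => exact add_mem (intCast_mem _ c) (mul_mem hy ih)

theorem pow_mul_prod (c : ℚ) (n : ℕ) (f : ℕ → ℚ) :
    c ^ n * ∏ j ∈ range n, f j = ∏ j ∈ range n, (c * f j) := by
  rw [Finset.prod_mul_distrib, Finset.prod_const, Finset.card_range]

theorem fac_add (m n : ℕ) : ((m + n)! : ℚ) = (m ! : ℚ) * ∏ j ∈ range n, ((m : ℚ) + (j + 1)) := by
  induction n with
  | zero => simp
  | succ n ih =>
    rw [Finset.prod_range_succ, ← mul_assoc, ← ih, ← add_assoc, Nat.factorial_succ]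
    push_cast
    ring

theorem fac_prod (n : ℕ) : (n ! : ℚ) = ∏ j ∈ range n, ((j : ℚ) + 1) := by
  have := fac_add 0 n
  simpa using this

/-- `n ! * ∏ (1 + c / j)` -/
theorem fac_mul_prod (n : ℕ) (c : ℚ) :
    (n ! : ℚ) * ∏ j ∈ range n, (1 + c * u (j + 1)) = ∏ j ∈ range n, (c + ((j : ℚ) + 1)) := by
  rw [fac_prod, ← Finset.prod_mul_distrib]
  refine Finset.prod_congr rfl fun j _ => ?_
  unfold u
  have : ((j : ℚ) + 1) ≠ 0 := by positivity
  push_cast
  field_simp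
  ring

/-- `∏_{j ≤ h} (1 + c p / j)` -/
noncomputable def DD (p h : ℕ) (c : ℚ) : ℚ := ∏ j ∈ range h, (1 + c * p * u (j + 1))

theorem DD_fac (p h : ℕ) (c : ℚ) :
    (h ! : ℚ) * DD p h c = ∏ j ∈ range h, (c * p + ((j : ℚ) + 1)) := fac_mul_prod h (c * p)

/-- `(-1)^h C(p-1, h)` -/
theorem choose_half {h : ℕ} (e : p = 2 * h + 1) :
    ((p - 1).choose h : ℚ) = (-1) ^ h * DD p h (-1) := by
  have h0 : (h ! : ℚ) ≠ 0 := by positivity
  have h1 := DD_fac p h (-1)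
  have h2 : ((p - 1)! : ℚ) = h ! * ∏ j ∈ range h, ((p : ℚ) - (j + 1)) := by
    have a1 : ((p - 1)! : ℚ) = ∏ n ∈ Ico 1 p, (n : ℚ) := by
      have := Finset.prod_Ico_id_eq_factorial (p - 1)
      rw [show p - 1 + 1 = p by omega] at this
      rw [← this]; push_cast; rfl
    rw [a1, pair_prod' e, fac_prod, ← Finset.prod_mul_distrib]
    refine Finset.prod_congr rfl fun j hj => ?_
    rw [mem_range] at hj
    rw [Nat.cast_sub (by omega)]
    push_cast; ring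
  have h3 : ∏ j ∈ range h, (-1 * (p : ℚ) + ((j : ℚ) + 1)) =
      (-1) ^ h * ∏ j ∈ range h, ((p : ℚ) - (j + 1)) := by
    rw [pow_mul_prod]
    exact Finset.prod_congr rfl fun j _ => by ring
  rw [Nat.cast_choose ℚ (by omega : h ≤ p - 1), show p - 1 - h = h by omega, h2]
  rw [h3] at h1
  rw [div_eq_iff (by positivity)]
  have h4 : ((-1 : ℚ)) ^ h * (-1) ^ h = 1 := by rw [← mul_pow]; norm_num
  calc (h ! : ℚ) * ∏ j ∈ range h, ((p : ℚ) - (j + 1))
      = ((-1 : ℚ) ^ h * (-1) ^ h) * ((h ! : ℚ) * ∏ j ∈ range h, ((p : ℚ) - (j + 1))) := by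
        rw [h4]; ring
    _ = (-1 : ℚ) ^ h * h ! * ((-1) ^ h * ∏ j ∈ range h, ((p : ℚ) - (j + 1))) := by ring
    _ = _ := by rw [← h1]; ring

/-- `2^(p-1)` -/
theorem two_pow {h : ℕ} (e : p = 2 * h + 1) :
    (2 : ℚ) ^ (p - 1) * DD p h (-(1 / 2)) = DD p h (-1) := by
  have h0 : (h ! : ℚ) ≠ 0 := by positivity
  have h1 := DD_fac p h (-(1 / 2))
  have hc := choose_half (p := p) e
  have h2 : ((p - 1)! : ℚ) = 4 ^ h * h ! * ∏ j ∈ range h, ((p : ℚ) / 2 - (j + 1)) := by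
    have a1 : ((p - 1)! : ℚ) = ∏ n ∈ Ico 1 p, (n : ℚ) := by
      have := Finset.prod_Ico_id_eq_factorial (p - 1)
      rw [show p - 1 + 1 = p by omega] at this
      rw [← this]; push_cast; rfl
    rw [a1, parity_prod' e, fac_prod, mul_assoc, ← Finset.prod_mul_distrib, pow_mul_prod]
    refine Finset.prod_congr rfl fun j hj => ?_
    rw [mem_range] at hj
    rw [Nat.cast_sub (by omega)]
    push_cast; ring
  have h3 : ∏ j ∈ range h, (-(1 / 2) * (p : ℚ) + ((j : ℚ) + 1)) =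
      (-1) ^ h * ∏ j ∈ range h, ((p : ℚ) / 2 - (j + 1)) := by
    rw [pow_mul_prod]
    exact Finset.prod_congr rfl fun j _ => by ring
  rw [h3] at h1
  rw [Nat.cast_choose ℚ (by omega : h ≤ p - 1), show p - 1 - h = h by omega, h2] at hc
  have h4 : ((-1 : ℚ)) ^ h * (-1) ^ h = 1 := by rw [← mul_pow]; norm_num
  have h5 : (2 : ℚ) ^ (p - 1) = 4 ^ h := by
    rw [show p - 1 = 2 * h by omega, pow_mul]; norm_num
  rw [h5]
  have h6 : DD p h (-1) = (-1) ^ h * ((-1) ^ h * DD p h (-1)) := by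
    rw [← mul_assoc, h4, one_mul]
  rw [h6, ← hc]
  have h7 : DD p h (-(1 / 2)) = ((-1) ^ h * ∏ j ∈ range h, ((p : ℚ) / 2 - (j + 1))) / (h ! : ℚ) := by
    rw [eq_div_iff h0, ← h1, mul_comm]
  rw [h7]
  field_simp

/-- `∏_{n < p} (1 + c p / n)` as a product over half of the numbers -/
theorem full_prod {h : ℕ} (e : p = 2 * h + 1) (c : ℚ) :
    (∏ n ∈ Ico 1 p, (1 + c * p * u n)) * DD p h (-1) = DD p h c * DD p h (-(c + 1)) := by
  rw [pair_prod' e, DD, DD, DD, ← Finset.prod_mul_distrib, ← Finset.prod_mul_distrib]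
  refine Finset.prod_congr rfl fun j hj => ?_
  rw [mem_range] at hj
  unfold u
  rw [Nat.cast_sub (by omega : j + 1 ≤ p)]
  have h1 : ((j : ℚ) + 1) ≠ 0 := by positivity
  have h2 : (p : ℚ) - (j + 1) ≠ 0 := by
    have := pn_ne (p := p) (n := j + 1) (by omega)
    push_cast at this
    exact this
  push_cast
  field_simp
  ring

/-- the factorials `(m p + p - 1)!` -/
theorem fac_block (m : ℕ) : ((m * p + (p - 1))! : ℚ) =
    ((m * p)! : ℚ) * ((p - 1)! : ℚ) * ∏ n ∈ Ico 1 p, (1 + m * p * u n) := by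
  rw [fac_add, mul_assoc]
  congr 1
  have h1 := fac_mul_prod (p - 1) ((m : ℚ) * p)
  have h2 : ∏ n ∈ Ico 1 p, (1 + m * p * u n) = ∏ j ∈ range (p - 1), (1 + m * p * u (j + 1)) := by
    rw [Finset.prod_Ico_eq_prod_range]
    exact Finset.prod_congr rfl fun j _ => by rw [add_comm 1 j]
  rw [h2, h1]
  push_cast
  rfl

/-- `(1 + c p / 1) ... (1 + c p / (p - 1))` -/
noncomputable def FF (p : ℕ) (c : ℚ) : ℚ := ∏ n ∈ Ico 1 p, (1 + c * p * u n)

theorem fac_p : (p ! : ℚ) = p * ((p - 1)! : ℚ) := by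
  have h : p = p - 1 + 1 := by have := hp.out.pos; omega
  conv_lhs => rw [h, Nat.factorial_succ]
  rw [← h]; push_cast; rfl

/-- `(2p)! = 2 A (p!)^2` -/
theorem fac_two_p : ((2 * p)! : ℚ) = 2 * FF p 1 * (p ! : ℚ) ^ 2 := by
  have h1 := fac_block (p := p) 1
  have h0 := hp.out.pos
  have h2 : 2 * p = 1 * p + (p - 1) + 1 := by omega
  rw [h2, Nat.factorial_succ, ← h2, Nat.cast_mul, h1, one_mul, FF]
  have h3 := fac_p (p := p)
  push_cast
  linear_combination (-(2 * (∏ n ∈ Ico 1 p, (1 + 1 * p * u n)) * (p ! : ℚ))) * h3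

/-- `C(2p, p) = 2 A` -/
theorem choose_two_p : ((2 * p).choose p : ℚ) = 2 * FF p 1 := by
  have h0 : (p ! : ℚ) ≠ 0 := by positivity
  rw [Nat.cast_choose ℚ (by omega : p ≤ 2 * p), show 2 * p - p = p by omega, fac_two_p]
  field_simp

/-- `(3p-1)! = (2p)! (p-1)! B` -/
theorem fac_three_p : ((3 * p - 1)! : ℚ) = ((2 * p)! : ℚ) * ((p - 1)! : ℚ) * FF p 2 := by
  have h1 := fac_block (p := p) 2
  have h0 := hp.out.pos
  rw [show 3 * p - 1 = 2 * p + (p - 1) by omega, h1, FF]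
  push_cast
  rfl

/-- `(p + h)!` -/
theorem fac_p_add (h : ℕ) : ((p + h)! : ℚ) = (p ! : ℚ) * (h ! : ℚ) * DD p h 1 := by
  rw [fac_add, mul_assoc, DD_fac]
  congr 1
  exact Finset.prod_congr rfl fun j _ => by ring

theorem two_p_sub_two : ((2 * p - 2)! : ℚ) * (2 * p * (2 * p - 1)) = ((2 * p)! : ℚ) := by
  have h0 := hp.out.two_le
  have h2 : 2 * p = 2 * p - 2 + 1 + 1 := by omega
  conv_rhs => rw [h2, Nat.factorial_succ, Nat.factorial_succ]
  have h3 : ((2 * p - 2 + 1 : ℕ) : ℚ) = 2 * p - 1 := by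
    rw [show 2 * p - 2 + 1 = 2 * p - 1 by omega, Nat.cast_sub (by omega)]; push_cast; ring
  have h4 : ((2 * p - 2 + 1 + 1 : ℕ) : ℚ) = 2 * p := by
    rw [← h2]; push_cast; ring
  push_cast [h3, h4] at *
  rw [h4, h3]
  ring

end Pool.Agent.Helper18SC
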