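import Pool.Agent.Helper18SC.FirstC
import Pool.Agent.R440.D518.G

/-!
The second congruence: `∑_{k ≤ (p-1)/2} G(k) C(2k,k)^7 / 2^(20k) ≡ (-1)^((p-1)/2) p^3` modulo `p ^ 8`.
-/

set_option autoImplicit false

namespace Pool.Agent.Helper18SC

open Finset Nat Pool.Agent.R440

def GB : List ℤ := [2976, -54798, 443568, -2090667, 6392698, -13316563, 19208524, -18989692,
  12323968, -4730752, 801792, 9216]

theorem psi_id (y : ℚ) (hy : 1 - 2 * y ≠ 0) :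
    (1 - y) ^ 10 * (1 + 4 * y) ^ 2 * (1 - 4 * y) ^ 2 * (1 - 6 * y) ^ 2 * ((1 - 2 * y)⁻¹) ^ 11 =
    1 + y ^ 2 * ((-51 : ℤ) + (-118 : ℤ) * y + (438 : ℤ) * y ^ 2 +
      y ^ 3 * (hn y GB * ((1 - 2 * y)⁻¹) ^ 11)) := by
  have key : (1 - y) ^ 10 * (1 + 4 * y) ^ 2 * (1 - 4 * y) ^ 2 * (1 - 6 * y) ^ 2 =
      (1 - 2 * y) ^ 11 * (1 + y ^ 2 * ((-51 : ℤ) + (-118 : ℤ) * y + (438 : ℤ) * y ^ 2)) +
        y ^ 5 * hn y GB := by
    simp only [GB, hn]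
    push_cast
    ring
  have h11 : (1 - 2 * y) ^ 11 * ((1 - 2 * y)⁻¹) ^ 11 = 1 := by
    rw [← mul_pow, mul_inv_cancel₀ hy, one_pow]
  rw [key]
  generalize (1 - 2 * y) ^ 11 = A at *
  generalize ((1 - 2 * y)⁻¹) ^ 11 = B at *
  generalize hn y GB = C at *
  push_cast
  linear_combination (1 + y ^ 2 * (-51 + -118 * y + 438 * y ^ 2)) * h11

theorem U_step (k m : ℕ) : D518.Gou.U (k + 1) m *
    (((m : ℚ) - k - 1 / 2) * ((m : ℚ) - k - 3 / 2) * (2 * k + m + 3)) =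
    D518.Gou.U k (m + 1) * ((3 * (k : ℚ) + m + 7 / 2) * (3 * (k : ℚ) + m + 5 / 2) * (m + 1)) := by
  unfold D518.Gou.U
  have e1 : hg (3 * ((k + 1 : ℕ) : ℤ) + m + 1) =
      ((3 * (k : ℚ) + m + 2) + 3 / 2) * ((3 * (k : ℚ) + m + 2) + 1 / 2) *
        hg (3 * (k : ℤ) + (m + 1 : ℕ) + 1) := by
    rw [show 3 * ((k + 1 : ℕ) : ℤ) + m + 1 = (3 * (k : ℤ) + (m + 1 : ℕ) + 1) + 2 by push_cast; ring,
      D518.Gou.hg2]
    push_cast
    ring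
  have e2 : hg (((m + 1 : ℕ) : ℤ) - k - 1) =
      (((m : ℚ) - k - 2) + 3 / 2) * (((m : ℚ) - k - 2) + 1 / 2) * hg ((m : ℤ) - (k + 1 : ℕ) - 1) := by
    rw [show ((m + 1 : ℕ) : ℤ) - k - 1 = ((m : ℤ) - (k + 1 : ℕ) - 1) + 2 by push_cast; ring,
      D518.Gou.hg2]
    push_cast
    ring
  rw [e1, e2, show 2 * (k + 1) + m + 1 = (2 * k + (m + 1) + 1) + 1 by ring]
  simp only [Nat.factorial_succ]
  have z5 : ((2 * k + (m + 1))! : ℚ) ≠ 0 := by positivity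
  have z6 : (m ! : ℚ) ≠ 0 := by positivity
  generalize hg (3 * (k : ℤ) + (m + 1 : ℕ) + 1) = A1
  generalize hg ((m : ℤ) - (k + 1 : ℕ) - 1) = A2
  push_cast
  field_simp
  ring

variable {p : ℕ} [hp : Fact p.Prime]

/-- the main product of the second congruence -/
theorem prodB {h : ℕ} (e : p = 2 * h + 1) (h7 : 7 ≤ p) :
    Cg p 5 (DD p h (-(1 / 2)) ^ 10 * DD p h 2 ^ 2 * DD p h (-2) ^ 2 * DD p h (-3) ^ 2 *
      ((DD p h (-1))⁻¹) ^ 11) (1 + (p : ℚ) ^ 3 * (1 / 8 * H h 3)) := by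
  have h2 : p ≠ 2 := by omega
  have hu : ∀ j < h, u (j + 1) ∈ Zp p := fun j hj => u_mem (by omega) (by omega)
  have := main_prod e h7 (-51) (-118) 438
    (fun j => hn (p * u (j + 1) / 2) GB * ((1 - 2 * (p * u (j + 1) / 2))⁻¹) ^ 11)
    (fun j hj => mul_mem (horner_mem (y_mem h2 (hu j hj)) GB)
      (pow_mem (one_sub_unit (hu j hj)).2 _))
  refine ((Cg.of_eq ?_).trans this).trans (Cg.of_eq ?_)
  · simp only [DD]
    rw [← Finset.prod_inv_distrib]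
    simp only [← Finset.prod_pow]
    simp only [← Finset.prod_mul_distrib]
    refine Finset.prod_congr rfl fun j hj => ?_
    have := psi_id (p * u (j + 1) / 2) (one_sub_unit (hu j (mem_range.1 hj))).1
    rw [show (p : ℚ) ^ 2 * (1 / 4 * u (j + 1) ^ 2 * (((-51 : ℤ) : ℚ) +
        ((-118 : ℤ) : ℚ) * (p * u (j + 1) / 2) + ((438 : ℤ) : ℚ) * (p * u (j + 1) / 2) ^ 2 +
        (p * u (j + 1) / 2) ^ 3 * (hn (p * u (j + 1) / 2) GB *
      ((1 - 2 * (p * u (j + 1) / 2))⁻¹) ^ 11))) =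
      (p * u (j + 1) / 2) ^ 2 * (((-51 : ℤ) : ℚ) +
        ((-118 : ℤ) : ℚ) * (p * u (j + 1) / 2) + ((438 : ℤ) : ℚ) * (p * u (j + 1) / 2) ^ 2 +
        (p * u (j + 1) / 2) ^ 3 * (hn (p * u (j + 1) / 2) GB *
      ((1 - 2 * (p * u (j + 1) / 2))⁻¹) ^ 11)) by ring, ← this]
    ring_nf
  · push_cast; ring

theorem two_pow_four (h : ℕ) (e : p = 2 * h + 1) : (4 : ℚ) ^ h = 2 ^ (p - 1) := by
  rw [show p - 1 = 2 * h by omega, pow_mul]; norm_num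

theorem U_top {h : ℕ} (e : p = 2 * h + 1) :
    (p : ℚ) * D518.Gou.U h 0 = (-1) ^ (h + 1) * (((2 : ℚ) ^ (p - 1))⁻¹) ^ 2 * FF p 1 * FF p 2 *
      (DD p h 1)⁻¹ := by
  unfold D518.Gou.U
  have e1 : hg (3 * (h : ℤ) + (0 : ℕ) + 1) = ((3 * p - 1)! : ℚ) / (4 ^ (3 * h + 1) * (p + h)!) := by
    rw [show 3 * (h : ℤ) + (0 : ℕ) + 1 = ((3 * h + 1 : ℕ) : ℤ) by push_cast; ring, hg_nat,
      show 2 * (3 * h + 1) = 3 * p - 1 by omega, show 3 * h + 1 = p + h by omega]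
  have e2 : hg (((0 : ℕ) : ℤ) - h - 1) = (-4) ^ (h + 1) * (h + 1)! / ((p + 1)! : ℚ) := by
    rw [show ((0 : ℕ) : ℤ) - h - 1 = -((h + 1 : ℕ) : ℤ) by push_cast; ring, hg_neg,
      show 2 * (h + 1) = p + 1 by omega]
  rw [e1, e2, show 2 * h + 0 + 1 = p by omega, fac_three_p, fac_p_add, fac_two_p]
  have h4 : ((p + 1)! : ℚ) = (p + 1) * (p ! : ℚ) := by rw [Nat.factorial_succ]; push_cast; ring
  have h5 : ((h + 1)! : ℚ) = (p + 1) / 2 * (h ! : ℚ) := by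
    rw [Nat.factorial_succ, e]; push_cast; ring
  have h6 : (-4 : ℚ) ^ (h + 1) = (-1) ^ (h + 1) * (2 ^ (p - 1) * 4) := by
    rw [← two_pow_four h e, show (-4 : ℚ) = (-1) * 4 by norm_num, mul_pow, pow_succ (4 : ℚ)]
  have h7 : (4 : ℚ) ^ (3 * h + 1) = (2 ^ (p - 1)) ^ 3 * 4 := by
    rw [← two_pow_four h e, pow_succ, mul_comm 3 h, pow_mul]
  have h8 := fac_p (p := p)
  have z0 : (0 : ℚ) < p := by exact_mod_cast hp.out.pos
  have z1 : ((p : ℚ) + 1) ≠ 0 := by positivity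
  have z2 : ((p - 1)! : ℚ) ≠ 0 := by positivity
  have z3 : (h ! : ℚ) ≠ 0 := by positivity
  have z4 := (DD_unit (p := p) (h := h) (by omega) (one_mem _)).1
  have z5 : ((2 : ℚ) ^ (p - 1)) ≠ 0 := by positivity
  rw [h4, h5, h6, h7, h8]
  simp only [Nat.factorial_zero, Nat.cast_one, mul_one]
  have z6 : (p : ℚ) ≠ 0 := z0.ne'
  generalize (2 : ℚ) ^ (p - 1) = E at *
  generalize DD p h 1 = D at *
  generalize ((p - 1)! : ℚ) = P at *
  generalize (h ! : ℚ) = Q at *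
  field_simp

/-- the main term of the second congruence -/
theorem mainB {h : ℕ} (e : p = 2 * h + 1) (h7 : 7 ≤ p) :
    Cg p 5 (DD p h (-1) ^ 3 * (((2 : ℚ) ^ (p - 1))⁻¹) ^ 6 * (p * D518.Gou.U h 0) ^ 2)
      (1 + (p : ℚ) ^ 3 * (1 / 8 * H h 3)) := by
  refine (Cg.of_eq ?_).trans (prodB e h7)
  have h1 := (DD_unit (p := p) (h := h) (by omega) (one_mem _)).1
  have h2 := (DD_unit (p := p) (h := h) (by omega) neg_one_mem).1
  have h3 := (DD_unit (p := p) (h := h) (by omega) (neg_half_mem (p := p) (by omega))).1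
  have h4 : ((2 : ℚ) ^ (p - 1))⁻¹ = DD p h (-(1 / 2)) * (DD p h (-1))⁻¹ := by
    rw [← two_pow (p := p) e]
    field_simp
  have h5 : ((-1 : ℚ) ^ (h + 1)) ^ 2 = 1 := by rw [← pow_mul, mul_comm, pow_mul]; norm_num
  rw [U_top e, h4, FF_eq e 1, FF_eq e 2]
  rw [show (-(1 + 1) : ℚ) = -2 by norm_num, show (-(2 + 1) : ℚ) = -3 by norm_num]
  generalize (-1 : ℚ) ^ (h + 1) = S at *
  field_simp
  rw [h5]
  ring

/-- `U / p` -/
noncomputable def et (p h k : ℕ) : ℚ := D518.Gou.U k (h - k) / p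

theorem et_zero {h : ℕ} (e : p = 2 * h + 1) (h7 : 7 ≤ p) : et p h 0 =
    2 * (DD p h (-1) ^ 2 * (((2 : ℚ) ^ (p - 1))⁻¹) ^ 2) *
      ((1 * (p : ℚ) + (-2))⁻¹ * (1 * (p : ℚ) + 1)⁻¹) := by
  unfold et D518.Gou.U
  have e1 : hg (3 * ((0 : ℕ) : ℤ) + ((h - 0 : ℕ) : ℤ) + 1) = (p : ℚ) / 2 * hg (h : ℤ) := by
    rw [show 3 * ((0 : ℕ) : ℤ) + ((h - 0 : ℕ) : ℤ) + 1 = (h : ℤ) + 1 by simp, hg_step, e]
    push_cast; ring
  have e2 : hg (h : ℤ) = ((p : ℚ) - 2) / 2 * hg (((h - 0 : ℕ) : ℤ) - ((0 : ℕ) : ℤ) - 1) := by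
    have := hg_step ((h : ℤ) - 1)
    rw [show (h : ℤ) - 1 + 1 = h by ring] at this
    rw [this, show ((h - 0 : ℕ) : ℤ) - ((0 : ℕ) : ℤ) - 1 = (h : ℤ) - 1 by simp, e]
    push_cast; ring
  have z0 : (7 : ℚ) ≤ p := by exact_mod_cast h7
  have z1 : ((p : ℚ) - 2) ≠ 0 := by linarith
  have z2 : ((p : ℚ) + 1) ≠ 0 := by linarith
  have z3 : (p : ℚ) ≠ 0 := by linarith
  have e3 : hg (((h - 0 : ℕ) : ℤ) - ((0 : ℕ) : ℤ) - 1) = 2 * hg (h : ℤ) / (p - 2) := by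
    rw [eq_div_iff z1, e2]; ring
  have e4 : hg (h : ℤ) / (h ! : ℚ) = ((p - 1).choose h : ℚ) * ((2 : ℚ) ^ (p - 1))⁻¹ := by
    rw [hg_nat, Nat.cast_choose ℚ (by omega : h ≤ p - 1), show p - 1 - h = h by omega,
      show 2 * h = p - 1 by omega, two_pow_four h e]
    have : (h ! : ℚ) ≠ 0 := by positivity
    field_simp
  have e5 : ((2 * 0 + (h - 0) + 1)! : ℚ) = (p + 1) / 2 * (h ! : ℚ) := by
    rw [show 2 * 0 + (h - 0) + 1 = h + 1 by omega, Nat.factorial_succ, e]; push_cast; ring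
  have e6 : ((h - 0)! : ℚ) = (h ! : ℚ) := by simp
  rw [e1, e3, e5, e6]
  have e7 : DD p h (-1) ^ 2 = ((p - 1).choose h : ℚ) ^ 2 := by
    rw [choose_half (p := p) e, mul_pow]
    have : ((-1 : ℚ) ^ h) ^ 2 = 1 := by rw [← pow_mul, mul_comm, pow_mul]; norm_num
    rw [this, one_mul]
  rw [e7, ← mul_pow, ← e4]
  have z4 : (h ! : ℚ) ≠ 0 := by positivity
  rw [show 1 * (p : ℚ) + (-2) = p - 2 by ring, one_mul]
  generalize hg (h : ℤ) = A1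
  field_simp

theorem et_step {h k : ℕ} (e : p = 2 * h + 1) (hk : k + 1 < h) : et p h (k + 1) = et p h k *
    ((1 / 2 * (p : ℚ) + ((2 * k + 1 : ℕ) : ℚ)) * ((1 / 2 * (p : ℚ) + ((2 * k + 2 : ℕ) : ℚ)) *
      (1 * (p : ℚ) + (-((2 * k + 1 : ℕ) : ℚ)))) *
      ((1 / 2 * (p : ℚ) + (-((2 * k + 2 : ℕ) : ℚ)))⁻¹ *
        ((1 / 2 * (p : ℚ) + (-((2 * k + 3 : ℕ) : ℚ)))⁻¹ *
        (1 * (p : ℚ) + ((2 * k + 3 : ℕ) : ℚ))⁻¹))) := by
  obtain ⟨m, hm⟩ : ∃ m, h = k + 1 + m := ⟨h - (k + 1), by omega⟩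
  have h1 := U_step k m
  have e1 : (m : ℚ) = p / 2 - (k + 3 / 2) := by rw [e, hm]; push_cast; ring
  unfold et
  rw [show h - (k + 1) = m by omega, show h - k = m + 1 by omega]
  have z0 : (0 : ℚ) < p := by exact_mod_cast hp.out.pos
  have odd : ∀ n : ℕ, (1 / 2 * (p : ℚ) + (-(n : ℚ))) ≠ 0 := by
    intro n hn
    have h2 : (p : ℚ) = 2 * n := by linarith
    have h3 : p = 2 * n := by exact_mod_cast h2
    omega
  have z1 := odd (2 * k + 2)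
  have z2 := odd (2 * k + 3)
  have z3 : (1 * (p : ℚ) + ((2 * k + 3 : ℕ) : ℚ)) ≠ 0 := by positivity
  rw [e1] at h1
  have h2 : D518.Gou.U (k + 1) m * ((1 / 2 * (p : ℚ) + (-((2 * k + 2 : ℕ) : ℚ))) *
      (1 / 2 * (p : ℚ) + (-((2 * k + 3 : ℕ) : ℚ))) * (1 * (p : ℚ) + ((2 * k + 3 : ℕ) : ℚ))) =
      D518.Gou.U k (m + 1) * ((1 / 2 * (p : ℚ) + ((2 * k + 1 : ℕ) : ℚ)) *
        ((1 / 2 * (p : ℚ) + ((2 * k + 2 : ℕ) : ℚ)) * (1 * (p : ℚ) + (-((2 * k + 1 : ℕ) : ℚ))))) := by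
    push_cast
    linear_combination 2 * h1
  have z4 : (p : ℚ) ≠ 0 := z0.ne'
  generalize (1 / 2 * (p : ℚ) + (-((2 * k + 2 : ℕ) : ℚ))) = B1 at *
  generalize (1 / 2 * (p : ℚ) + (-((2 * k + 3 : ℕ) : ℚ))) = B2 at *
  generalize (1 * (p : ℚ) + ((2 * k + 3 : ℕ) : ℚ)) = B3 at *
  rw [div_eq_iff z4]
  have h3 : D518.Gou.U (k + 1) m = D518.Gou.U k (m + 1) *
      ((1 / 2 * (p : ℚ) + ((2 * k + 1 : ℕ) : ℚ)) *
        ((1 / 2 * (p : ℚ) + ((2 * k + 2 : ℕ) : ℚ)) * (1 * (p : ℚ) + (-((2 * k + 1 : ℕ) : ℚ))))) /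
      (B1 * B2 * B3) := by
    rw [eq_div_iff (by positivity), h2]
  rw [h3]
  field_simp

/-- the expansion of `U / p` -/
theorem et_ex {h : ℕ} (e : p = 2 * h + 1) (h7 : 7 ≤ p) (k : ℕ) (hk : k < h) :
    Ex p (et p h k) ((-1) ^ (k + 1) * u (2 * k + 1) ^ 2)
      (-(H (2 * k) 1 - H k 1) - 1 / 2 * u (2 * k + 1) - H h 1) := by
  have h2 : p ≠ 2 := by omega
  have hh := half_mem (p := p) h2
  induction k with
  | zero =>
    rw [et_zero e h7]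
    have a1 := ((Ex_DD (p := p) (h := h) (by omega) neg_one_mem).pow 2).mul ((Ex_two e h2).pow 2)
    have a2 := Ex.lin_inv (p := p) (a := 1) (b := -2) (one_mem _) (neg_mem (num_mem 2)) (by norm_num)
      (by norm_num; exact half_mem h2)
    have a3 := Ex.lin_inv (p := p) (a := 1) (b := 1) (one_mem _) (one_mem _) (by norm_num)
      (by norm_num)
    have a4 : Ex p 2 2 0 := ⟨num_mem 2, zero_mem _, Cg.of_eq (by ring)⟩
    refine ((a4.mul a1).mul (a2.mul a3)).congr rfl ?_ ?_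
    · norm_num [u]
    · rw [show 2 * 0 = 0 by rfl, H_zero]; norm_num [u]; ring
  | succ k ih =>
    have ih := ih (by omega)
    rw [et_step e (by omega)]
    have b : ∀ n : ℕ, 0 < n → n < p → ((n : ℚ) ∈ Zp p ∧ (n : ℚ) ≠ 0 ∧ (n : ℚ)⁻¹ ∈ Zp p) :=
      fun n h0 h1 => ⟨num_mem n, nat_ne h0, inv_small h0 h1⟩
    obtain ⟨m1, n1, i1⟩ := b (2 * k + 1) (by omega) (by omega)
    obtain ⟨m2, n2, i2⟩ := b (2 * k + 2) (by omega) (by omega)
    obtain ⟨m3, n3, i3⟩ := b (2 * k + 3) (by omega) (by omega)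
    have a1 := Ex.lin (p := p) (a := 1 / 2) hh m1 n1 i1
    have a2 := Ex.lin (p := p) (a := 1 / 2) hh m2 n2 i2
    have a3 := Ex.lin (p := p) (a := 1) (one_mem _) (neg_mem m1) (neg_ne_zero.2 n1)
      (by rw [inv_neg]; exact neg_mem i1)
    have a4 := Ex.lin_inv (p := p) (a := 1 / 2) hh (neg_mem m2) (neg_ne_zero.2 n2)
      (by rw [inv_neg]; exact neg_mem i2)
    have a5 := Ex.lin_inv (p := p) (a := 1 / 2) hh (neg_mem m3) (neg_ne_zero.2 n3)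
      (by rw [inv_neg]; exact neg_mem i3)
    have a6 := Ex.lin_inv (p := p) (a := 1) (one_mem _) m3 n3 i3
    refine (ih.mul ((a1.mul (a2.mul a3)).mul (a4.mul (a5.mul a6)))).congr rfl ?_ ?_
    · rw [show 2 * (k + 1) + 1 = 2 * k + 3 by ring]
      unfold u
      rw [pow_succ (-1 : ℚ) (k + 1)]
      field_simp
    · rw [show 2 * (k + 1) + 1 = 2 * k + 3 by ring, show 2 * (k + 1) = 2 * k + 1 + 1 by ring,
        H_succ, H_succ, H_succ, show 2 * k + 1 + 1 = 2 * k + 2 by ring]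
      have h3 : u (k + 1) = 2 * u (2 * k + 2) := by
        rw [show 2 * k + 2 = 2 * (k + 1) by ring, u_two]; ring
      rw [h3]
      simp only [inv_neg]
      unfold u
      ring

/-- closed form of the second sum -/
theorem closedB {h : ℕ} (e : p = 2 * h + 1) :
    ∑ k ∈ range (h + 1), (168 * (k : ℚ) ^ 3 + 76 * k ^ 2 + 14 * k + 1) / 2 ^ (20 * k) *
      ((2 * k).choose k : ℚ) ^ 7 =
    (p : ℚ) ^ 3 * ((-1) ^ h * (DD p h (-1) ^ 3 * (((2 : ℚ) ^ (p - 1))⁻¹) ^ 6 *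
      (p * D518.Gou.U h 0) ^ 2 + (p : ℚ) ^ 3 * ((DD p h (-1) ^ 3 * (((2 : ℚ) ^ (p - 1))⁻¹) ^ 6) *
        ∑ k ∈ range h, ((2 * k + 1 : ℕ) : ℚ) * et p h k ^ 2))) := by
  have h1 := D518.Gou.closed h
  have h0 := hp.out.two_le
  have h2 := D518.cb_rel h
  have h3 : ((h + 1 : ℕ) : ℚ) ^ 3 * ((2 * (h + 1)).choose (h + 1) : ℚ) ^ 3 =
      8 * (p : ℚ) ^ 3 * ((-1) ^ h * DD p h (-1) ^ 3) := by
    rw [← mul_pow]
    push_cast
    rw [h2]
    have h4 : ((2 * h).choose h : ℚ) = (-1) ^ h * DD p h (-1) := by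
      rw [← choose_half (p := p) e, show p - 1 = 2 * h by omega]
    have h5 : ((-1 : ℚ) ^ h) ^ 3 = (-1) ^ h := by
      rw [← pow_mul, mul_comm, pow_mul]; norm_num
    rw [h4, e, mul_pow, mul_pow, mul_pow, h5]
    push_cast; ring
  have h6 : ((2 : ℚ) ^ 20) ^ h = ((2 : ℚ) ^ (p - 1)) ^ 10 := by
    rw [← pow_mul, ← pow_mul]; congr 1; omega
  have h7 : ((2 : ℚ) ^ (p - 1)) ≠ 0 := by positivity
  have z4 : (p : ℚ) ≠ 0 := p_ne
  have h8 : ∀ k ∈ range h, D518.Gou.t k (h - k) =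
      (p : ℚ) ^ 3 * (((2 : ℚ) ^ (p - 1)) ^ 4 / 16 * (((2 * k + 1 : ℕ) : ℚ) * et p h k ^ 2)) := by
    intro k hk
    rw [mem_range] at hk
    unfold D518.Gou.t D518.Gou.X et
    have h9 : (16 : ℚ) ^ (k + (h - k)) = ((2 : ℚ) ^ (p - 1)) ^ 2 := by
      rw [show (16 : ℚ) = 2 ^ 4 by norm_num, ← pow_mul, ← pow_mul]; congr 1; omega
    rw [h9, show 2 * (k + (h - k)) + 1 = p by omega]
    generalize (2 : ℚ) ^ (p - 1) = E at *
    field_simp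
  have h10 : D518.Gou.t h (h - h) =
      ((2 : ℚ) ^ (p - 1)) ^ 4 / 16 * (p * D518.Gou.U h 0) ^ 2 := by
    unfold D518.Gou.t D518.Gou.X
    have h9 : (16 : ℚ) ^ (h + (h - h)) = ((2 : ℚ) ^ (p - 1)) ^ 2 := by
      rw [show (16 : ℚ) = 2 ^ 4 by norm_num, ← pow_mul, ← pow_mul]; congr 1; omega
    rw [h9, show 2 * (h + (h - h)) + 1 = p by omega, show 2 * h + 1 = p by omega,
      show h - h = 0 by omega]
    ring
  rw [Finset.sum_range_succ (fun k => D518.Gou.t k (h - k)), Finset.sum_congr rfl h8, h10, h6] at h1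
  have h11 : ∑ k ∈ range (h + 1), (168 * (k : ℚ) ^ 3 + 76 * k ^ 2 + 14 * k + 1) / 2 ^ (20 * k) *
      ((2 * k).choose k : ℚ) ^ 7 = 512 * ∑ j ∈ range (h + 1), D518.Gou.s j := by
    rw [Finset.mul_sum]
    refine Finset.sum_congr rfl fun k _ => ?_
    unfold D518.Gou.s
    rw [pow_mul]
    field_simp
  have h12 : ∑ k ∈ range h,
      (p : ℚ) ^ 3 * (((2 : ℚ) ^ (p - 1)) ^ 4 / 16 * (((2 * k + 1 : ℕ) : ℚ) * et p h k ^ 2)) =
      (p : ℚ) ^ 3 * (((2 : ℚ) ^ (p - 1)) ^ 4 / 16 *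
        ∑ k ∈ range h, ((2 * k + 1 : ℕ) : ℚ) * et p h k ^ 2) := by
    simp only [Finset.mul_sum]
  rw [h12] at h1
  rw [h11]
  have h13 : 512 * ∑ j ∈ range (h + 1), D518.Gou.s j = 2 * (8 * (p : ℚ) ^ 3 *
      ((-1) ^ h * DD p h (-1) ^ 3)) * ((p : ℚ) ^ 3 * (((2 : ℚ) ^ (p - 1)) ^ 4 / 16 *
        ∑ k ∈ range h, ((2 * k + 1 : ℕ) : ℚ) * et p h k ^ 2) +
        ((2 : ℚ) ^ (p - 1)) ^ 4 / 16 * (p * D518.Gou.U h 0) ^ 2) / ((2 : ℚ) ^ (p - 1)) ^ 10 := by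
    rw [eq_div_iff (by positivity), mul_comm, h1, ← h3]
    ring
  rw [h13]
  generalize (2 : ℚ) ^ (p - 1) = E at *
  field_simp
  ring

/-- **The second congruence** for `p ≥ 7`. -/
theorem second {h : ℕ} (e : p = 2 * h + 1) (h7 : 7 ≤ p) :
    Cg p 8 (∑ k ∈ range (h + 1), (168 * (k : ℚ) ^ 3 + 76 * k ^ 2 + 14 * k + 1) / 2 ^ (20 * k) *
      ((2 * k).choose k : ℚ) ^ 7) ((-1) ^ h * (p : ℚ) ^ 3) := by
  have h2 : p ≠ 2 := by omega
  rw [closedB e]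
  have mH1 : H h 1 ∈ Zp p := H_mem (by omega) 1
  have mH3 : H h 3 ∈ Zp p := H_mem (by omega) 3
  have h3 : Cg p 2 (∑ k ∈ range h, ((2 * k + 1 : ℕ) : ℚ) * et p h k ^ 2)
      (-(1 / 8) * H h 3) := by
    have a0 : Cg p 2 (∑ k ∈ range h, ((2 * k + 1 : ℕ) : ℚ) * et p h k ^ 2)
        (∑ k ∈ range h, (u (2 * k + 1) ^ 3 * (1 + p * (-2 * (H (2 * k) 1 - H k 1) +
          -1 * u (2 * k + 1))) + -2 * (H h 1 * (p * u (2 * k + 1) ^ 3)))) := by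
      refine Cg.sum fun k hk => ?_
      have hk := mem_range.1 hk
      have a1 := ((et_ex e h7 k hk).pow 2).h.mul_left (num_mem (p := p) (2 * k + 1))
      refine a1.trans (Cg.of_eq ?_)
      have a2 : ((2 * k + 1 : ℕ) : ℚ) * u (2 * k + 1) = 1 := by
        unfold u
        have := nat_ne (n := 2 * k + 1) (by omega)
        field_simp
      have a3 : ((-1 : ℚ) ^ (k + 1)) ^ 2 = 1 := by rw [← pow_mul, mul_comm, pow_mul]; norm_num
      push_cast at a2 ⊢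
      calc _ = ((-1 : ℚ) ^ (k + 1)) ^ 2 * ((2 * (k : ℚ) + 1) * u (2 * k + 1)) *
            u (2 * k + 1) ^ 3 * (1 + p * (2 * (-(H (2 * k) 1 - H k 1) - 1 / 2 * u (2 * k + 1) -
              H h 1))) := by
            ring
        _ = _ := by rw [a2, a3]; ring
    have a4 := small_sum e h7 (fun k => u (2 * k + 1) ^ 3 * (1 + p * (-2 * (H (2 * k) 1 - H k 1) +
          -1 * u (2 * k + 1)))) 1 (-2) (-1) (fun k _ => Cg.of_eq (by push_cast; ring))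
    have a5 : Cg p 2 (∑ k ∈ range h, (-2 * (H h 1 * (p * u (2 * k + 1) ^ 3))))
        (-2 * (H h 1 * (p * (-(1 / 8) * H h 3)))) := by
      have := ((((A3 e h7).mono (by norm_num : 1 ≤ 2)).pmul 1).mul_left mH1).mul_left
        (neg_mem (num_mem (p := p) 2))
      refine ((Cg.of_eq ?_).trans this).trans (Cg.of_eq ?_)
      · simp only [Finset.mul_sum]
        exact Finset.sum_congr rfl fun k _ => by push_cast; ring
      · push_cast; ring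
    rw [Finset.sum_add_distrib] at a0
    refine a0.trans ((a4.add a5).trans (Cg.of_eq ?_))
    push_cast
    ring
  have h4 := (((Ex_DD (p := p) (h := h) (by omega) neg_one_mem).pow 3).mul
    ((Ex_two e h2).pow 6)).h
  have h5 : Cg p 2 ((DD p h (-1) ^ 3 * (((2 : ℚ) ^ (p - 1))⁻¹) ^ 6) *
        ∑ k ∈ range h, ((2 * k + 1 : ℕ) : ℚ) * et p h k ^ 2) (-(1 / 8) * H h 3) := by
    have h6 : Cg p 2 (DD p h (-1) ^ 3 * (((2 : ℚ) ^ (p - 1))⁻¹) ^ 6) 1 := by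
      refine h4.trans (Cg.of_eq ?_)
      push_cast; ring
    have m8 : (-(1 / 8) : ℚ) ∈ Zp p := by
      rw [show (-(1 / 8) : ℚ) = -((1 / 2) ^ 3) by norm_num]
      exact neg_mem (pow_mem (half_mem h2) _)
    refine (h6.mul' h3 (one_mem _) (mul_mem m8 mH3)).trans (Cg.of_eq (by ring))
  have h6 := (mainB e h7).add (h5.pmul 3)
  have m1 : ((-1 : ℚ)) ^ h ∈ Zp p := pow_mem neg_one_mem _
  have h8 := (h6.mul_left m1).pmul 3
  refine h8.trans (Cg.of_eq ?_)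
  ring

end Pool.Agent.Helper18SC
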